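import Mathlib

/-!
Acyclic matchings of an abstract covering relation, and cancellation by toggling a pair.
-/

set_option autoImplicit false

namespace Pool.Agent.R536.ME

open Finset

variable {S : Type}

/-- Arcs of the diagram in which the pairs of `M` are reversed. -/
def arc (cov : S → S → Prop) (M : Finset (S × S)) (x y : S) : Prop :=
  (cov y x ∧ (y, x) ∉ M) ∨ (x, y) ∈ M

/-- A matching consisting of covering pairs. -/
structure Mat (cov : S → S → Prop) (M : Finset (S × S)) : Prop where
  cov : ∀ p ∈ M, cov p.1 p.2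
  disj : ∀ p ∈ M, ∀ q ∈ M, p ≠ q → p.1 ≠ q.1 ∧ p.1 ≠ q.2 ∧ p.2 ≠ q.1 ∧ p.2 ≠ q.2

/-- An acyclic matching. -/
structure Acy (cov : S → S → Prop) (M : Finset (S × S)) : Prop where
  mat : Mat cov M
  acyclic : ∀ x, ¬ Relation.TransGen (arc cov M) x x

theorem Mat.erase [DecidableEq S] {cov : S → S → Prop} {M : Finset (S × S)} (h : Mat cov M)
    (p : S × S) : Mat cov (M.erase p) :=
  ⟨fun q hq => h.cov q (mem_of_mem_erase hq), fun q hq r hr =>
    h.disj q (mem_of_mem_erase hq) r (mem_of_mem_erase hr)⟩

theorem Mat.insert [DecidableEq S] {cov : S → S → Prop} {M : Finset (S × S)} (h : Mat cov M)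
    {p : S × S} (hp : cov p.1 p.2)
    (hfree : ∀ q ∈ M, q.1 ≠ p.1 ∧ q.1 ≠ p.2 ∧ q.2 ≠ p.1 ∧ q.2 ≠ p.2) :
    Mat cov (insert p M) := by
  refine ⟨?_, ?_⟩
  · intro q hq
    rcases mem_insert.1 hq with rfl | hq
    · exact hp
    · exact h.cov q hq
  · intro q hq r hr hne
    rcases mem_insert.1 hq with rfl | hq'
    · rcases mem_insert.1 hr with rfl | hr'
      · exact absurd rfl hne
      · obtain ⟨h1, h2, h3, h4⟩ := hfree r hr'
        exact ⟨h1.symm, h3.symm, h2.symm, h4.symm⟩
    · rcases mem_insert.1 hr with rfl | hr'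
      · obtain ⟨h1, h2, h3, h4⟩ := hfree q hq'
        exact ⟨h1, h2, h3, h4⟩
      · exact h.disj q hq' r hr' hne

/-- Two pairs of a matching with a common cell are equal. -/
theorem Mat.eq_of_fst {cov : S → S → Prop} {M : Finset (S × S)} (h : Mat cov M) {x y z : S}
    (h1 : (x, y) ∈ M) (h2 : (x, z) ∈ M) : y = z := by
  by_contra hne
  exact (h.disj _ h1 _ h2 (fun e => hne (congrArg Prod.snd e))).1 rfl

theorem Mat.eq_of_snd {cov : S → S → Prop} {M : Finset (S × S)} (h : Mat cov M) {x y z : S}
    (h1 : (x, z) ∈ M) (h2 : (y, z) ∈ M) : x = y := by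
  by_contra hne
  exact (h.disj _ h1 _ h2 (fun e => hne (congrArg Prod.fst e))).2.2.2 rfl

theorem Mat.not_mid {cov : S → S → Prop} {M : Finset (S × S)} (h : Mat cov M) {x y z : S}
    (hxy : x ≠ y) (h1 : (x, y) ∈ M) (h2 : (y, z) ∈ M) : False :=
  (h.disj _ h1 _ h2 (fun e => hxy (congrArg Prod.fst e))).2.2.1 rfl

/-- A path cannot pass through a cell without outgoing arcs. -/
theorem transGen_avoid_sink {r r' : S → S → Prop} {l : S} (hl : ∀ y, ¬ r l y)
    (h : ∀ x y, x ≠ l → y ≠ l → r x y → r' x y) {x y : S} (hy : y ≠ l)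
    (hxy : Relation.TransGen r x y) : Relation.TransGen r' x y := by
  induction hxy using Relation.TransGen.head_induction_on with
  | single hab =>
    rename_i a
    have ha : a ≠ l := by rintro rfl; exact hl _ hab
    exact Relation.TransGen.single (h _ _ ha hy hab)
  | head hac hcy ih =>
    rename_i a c
    have ha : a ≠ l := by rintro rfl; exact hl _ hac
    have hc : c ≠ l := by
      rintro rfl
      obtain ⟨b, hb, -⟩ := Relation.TransGen.head'_iff.1 hcy
      exact hl _ hb
    exact Relation.TransGen.head (h _ _ ha hc hac) ih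

/-- A path cannot pass through a cell without incoming arcs. -/
theorem transGen_avoid_source {r r' : S → S → Prop} {l : S} (hl : ∀ y, ¬ r y l)
    (h : ∀ x y, x ≠ l → y ≠ l → r x y → r' x y) {x y : S} (hx : x ≠ l)
    (hxy : Relation.TransGen r x y) : Relation.TransGen r' x y := by
  induction hxy with
  | single hab =>
    rename_i b
    have hb : b ≠ l := by rintro rfl; exact hl _ hab
    exact Relation.TransGen.single (h _ _ hx hb hab)
  | tail hac hcy ih =>
    rename_i b c
    have hc : c ≠ l := by rintro rfl; exact hl _ hcy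
    have hb : b ≠ l := by
      rintro rfl
      obtain ⟨d, -, hd⟩ := Relation.TransGen.tail'_iff.1 hac
      exact hl _ hd
    exact Relation.TransGen.tail ih (h _ _ hb hc hcy)

/-- A rank function excludes cycles. -/
theorem no_cycle_of_rank {r : S → S → Prop} (f : S → ℕ) (h : ∀ x y, r x y → f y < f x) (x : S) :
    ¬ Relation.TransGen r x x := by
  intro hx
  have key : ∀ y, Relation.TransGen r x y → f y < f x := by
    intro y hy
    induction hy with
    | single hab => exact h _ _ hab
    | tail _ hcy ih => exact (h _ _ hcy).trans ih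
  exact lt_irrefl _ (key x hx)

/-- Cancellation by toggling. -/
theorem sum_toggle {α : Type} [DecidableEq α] (F : Finset (Finset α)) (p : α)
    (h1 : ∀ M ∈ F, p ∉ M → insert p M ∈ F) (h2 : ∀ M ∈ F, p ∈ M → M.erase p ∈ F) :
    ∑ M ∈ F, (-1 : ℤ) ^ M.card = 0 := by
  refine Finset.sum_involution (fun M _ => if p ∈ M then M.erase p else insert p M) ?_ ?_ ?_ ?_
  · intro M hM
    by_cases hp : p ∈ M
    · simp only [hp, if_true]
      have := card_erase_add_one hp
      rw [← this, pow_succ]
      ring
    · simp only [hp, if_false]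
      rw [card_insert_of_notMem hp, pow_succ]
      ring
  · intro M hM _ heq
    by_cases hp : p ∈ M
    · simp only [hp, if_true] at heq
      rw [← heq] at hp
      exact notMem_erase p M hp
    · simp only [hp, if_false] at heq
      exact hp (heq ▸ mem_insert_self p M)
  · intro M hM
    by_cases hp : p ∈ M
    · simp only [hp, if_true]
      exact h2 M hM hp
    · simp only [hp, if_false]
      exact h1 M hM hp
  · intro M hM
    by_cases hp : p ∈ M
    · simp only [hp, if_true, notMem_erase, if_false]
      exact insert_erase hp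
    · simp only [hp, if_false, mem_insert_self, if_true]
      exact erase_insert hp

/-- Restricting a signed sum to the sets with a property. -/
theorem sum_restrict {α : Type} [DecidableEq α] (P G : Finset α → Prop)
    [DecidablePred P] [DecidablePred G] (U : Finset (Finset α))
    (h : ∑ M ∈ U.filter (fun M => P M ∧ ¬ G M), (-1 : ℤ) ^ M.card = 0) :
    ∑ M ∈ U.filter P, (-1 : ℤ) ^ M.card =
      ∑ M ∈ U.filter (fun M => P M ∧ G M), (-1 : ℤ) ^ M.card := by
  rw [← Finset.sum_filter_add_sum_filter_not (U.filter P) G, filter_filter, filter_filter, h,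
    add_zero]

end Pool.Agent.R536.ME
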