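import Pool.Agent.R536.ME.Stage

/-!
The surviving matchings correspond to the permutations supported by the matrix, with signs.
-/

set_option autoImplicit false

namespace Pool.Agent.R536.ME

open Finset Classical

variable {n : ℕ} {A : Fin n → Fin n → Bool}

/-- The pairs of the matching given by a permutation and signs. -/
def rel (σ : Equiv.Perm (Fin n)) (ε : Fin n → Bool) : Cell A → Cell A → Prop
  | .ov x, .le y => x = y
  | .g j, .T j' i => j = j' ∧ σ i = j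
  | .gb j i, .T j' i' => j = j' ∧ i = i' ∧ σ i ≠ j
  | .v i, .va i' j _ => i = i' ∧ σ i = j ∧ ε i = true
  | .v i, .vb i' j _ => i = i' ∧ σ i = j ∧ ε i = false
  | .gb j i, .t i' j' _ => j = j' ∧ i = i' ∧ σ i = j
  | .va i j _, .t i' j' _ => i = i' ∧ j = j' ∧ σ i ≠ j
  | _, _ => False

/-- The matching given by a permutation and signs. -/
noncomputable def MM (A : Fin n → Fin n → Bool) (σ : Equiv.Perm (Fin n)) (ε : Fin n → Bool) :
    Finset (Cell A × Cell A) := univ.filter (fun p => rel σ ε p.1 p.2)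

theorem mem_MM {σ : Equiv.Perm (Fin n)} {ε : Fin n → Bool} {x y : Cell A} :
    (x, y) ∈ MM A σ ε ↔ rel σ ε x y := by
  simp [MM]

/-- What a member of the matching looks like. -/
theorem rel_cases {σ : Equiv.Perm (Fin n)} {ε : Fin n → Bool} {x y : Cell A}
    (h : rel σ ε x y) :
    (∃ z, x = .ov z ∧ y = .le z) ∨ (∃ i, x = .g (σ i) ∧ y = .T (σ i) i) ∨
    (∃ j i, σ i ≠ j ∧ x = .gb j i ∧ y = .T j i) ∨
    (∃ i h, ε i = true ∧ x = .v i ∧ y = .va i (σ i) h) ∨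
    (∃ i h, ε i = false ∧ x = .v i ∧ y = .vb i (σ i) h) ∨
    (∃ i h, x = .gb (σ i) i ∧ y = .t i (σ i) h) ∨
    (∃ i j h, σ i ≠ j ∧ x = .va i j h ∧ y = .t i j h) := by
  match x, y, h with
  | .ov x, .le y, h =>
    change x = y at h
    subst h
    exact Or.inl ⟨x, rfl, rfl⟩
  | .g j, .T j' i, h =>
    obtain ⟨rfl, rfl⟩ := h
    exact Or.inr (Or.inl ⟨i, rfl, rfl⟩)
  | .gb j i, .T j' i', h =>
    obtain ⟨rfl, rfl, h⟩ := h
    exact Or.inr (Or.inr (Or.inl ⟨j, i, h, rfl, rfl⟩))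
  | .v i, .va i' j h', h =>
    obtain ⟨rfl, rfl, h⟩ := h
    exact Or.inr (Or.inr (Or.inr (Or.inl ⟨i, h', h, rfl, rfl⟩)))
  | .v i, .vb i' j h', h =>
    obtain ⟨rfl, rfl, h⟩ := h
    exact Or.inr (Or.inr (Or.inr (Or.inr (Or.inl ⟨i, h', h, rfl, rfl⟩))))
  | .gb j i, .t i' j' h', h =>
    obtain ⟨rfl, rfl, rfl⟩ := h
    exact Or.inr (Or.inr (Or.inr (Or.inr (Or.inr (Or.inl ⟨i, h', rfl, rfl⟩)))))
  | .va i j h', .t i' j' h'', h =>
    obtain ⟨rfl, rfl, h⟩ := h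
    exact Or.inr (Or.inr (Or.inr (Or.inr (Or.inr (Or.inr ⟨i, j, h', h, rfl, rfl⟩)))))

theorem mat_MM (σ : Equiv.Perm (Fin n)) (ε : Fin n → Bool) : Mat Fc (MM A σ ε) := by
  refine ⟨?_, ?_⟩
  · rintro ⟨x, y⟩ hp
    rcases rel_cases (mem_MM.1 hp) with ⟨z, rfl, rfl⟩ | ⟨i, rfl, rfl⟩ | ⟨j, i, h, rfl, rfl⟩ |
      ⟨i, h, h', rfl, rfl⟩ | ⟨i, h, h', rfl, rfl⟩ | ⟨i, h, rfl, rfl⟩ | ⟨i, j, h, h', rfl, rfl⟩
    · exact Fc.le_o _
    · exact Fc.T_g _ _
    · exact Fc.T_gb _ _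
    · exact Fc.va_v _ _ _
    · exact Fc.vb_v _ _ _
    · exact Fc.t_gb _ _ _
    · exact Fc.t_va _ _ _
  · rintro ⟨x, y⟩ hp ⟨x', y'⟩ hq hne
    rcases rel_cases (mem_MM.1 hp) with ⟨z, rfl, rfl⟩ | ⟨i, rfl, rfl⟩ | ⟨j, i, h, rfl, rfl⟩ |
      ⟨i, h, h', rfl, rfl⟩ | ⟨i, h, h', rfl, rfl⟩ | ⟨i, h, rfl, rfl⟩ | ⟨i, j, h, h', rfl, rfl⟩ <;>
    rcases rel_cases (mem_MM.1 hq) with ⟨z', rfl, rfl⟩ | ⟨i', rfl, rfl⟩ | ⟨j', i', k, rfl, rfl⟩ |
      ⟨i', k, k', rfl, rfl⟩ | ⟨i', k, k', rfl, rfl⟩ | ⟨i', k, rfl, rfl⟩ |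
      ⟨i', j', k, k', rfl, rfl⟩ <;>
    simp_all
    all_goals aesop


theorem cls_MM {σ : Equiv.Perm (Fin n)} (hσ : ∀ i, A i (σ i) = true) (ε : Fin n → Bool) :
    Cls univ univ univ (MM A σ ε) := by
  refine ⟨⟨mat_MM σ ε, fun x => mem_MM.2 rfl⟩, ?_, ?_, ?_⟩
  · rintro ⟨j, i⟩ -
    by_cases h : σ i = j
    · exact Or.inl (mem_MM.2 ⟨rfl, h⟩)
    · exact Or.inr (mem_MM.2 ⟨rfl, rfl, h⟩)
  · intro i _
    refine ⟨σ i, hσ i, ?_⟩
    cases h : ε i
    · exact Or.inr (mem_MM.2 ⟨rfl, rfl, h⟩)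
    · exact Or.inl (mem_MM.2 ⟨rfl, rfl, h⟩)
  · rintro ⟨i, j⟩ - h
    by_cases h' : σ i = j
    · exact Or.inl (mem_MM.2 ⟨rfl, rfl, h'⟩)
    · refine Or.inr ⟨mem_MM.2 ⟨rfl, rfl, h'⟩, fun h2 => ?_⟩
      exact h' (mem_MM.1 h2).2.1

theorem exists_MM {M : Finset (Cell A × Cell A)} (hM : Cls univ univ univ M) :
    ∃ (σ : Equiv.Perm (Fin n)) (ε : Fin n → Bool), (∀ i, A i (σ i) = true) ∧ M = MM A σ ε := by
  obtain ⟨⟨hm, hP1⟩, hP2, hP3, hP4⟩ := hM
  have hP2' : ∀ j i, P2 M j i := fun j i => hP2 (j, i) (mem_univ _)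
  have hP4' : ∀ i j, P4 M i j := fun i j => hP4 (i, j) (mem_univ _)
  have hP3' : ∀ i, P3 M i := fun i => hP3 i (mem_univ _)
  choose s hs hpick using hP3'
  -- the triangle of the picked entry
  have F1 : ∀ i, (Cell.gb (s i) i, Cell.t i (s i) (hs i)) ∈ M := by
    intro i
    rcases hP4' i (s i) (hs i) with h | ⟨h1, h2⟩
    · exact h
    · rcases hpick i with h3 | h3
      · exact absurd h1 (fun h1 => hm.not_mid (by simp) h3 h1)
      · exact absurd h3 h2
  have F2 : ∀ i, (Cell.g (s i), Cell.T (s i) i) ∈ M := by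
    intro i
    rcases hP2' (s i) i with h | h
    · exact h
    · exact absurd (hm.eq_of_fst h (F1 i)) (by simp)
  have hinj : Function.Injective s := by
    intro i i' h
    have h1 := F2 i
    have h2 := F2 i'
    rw [← h] at h2
    have := hm.eq_of_fst h1 h2
    simpa using this
  let σ : Equiv.Perm (Fin n) := Equiv.ofBijective s (Finite.injective_iff_bijective.1 hinj)
  have hσ : ∀ i, σ i = s i := fun i => rfl
  have F3 : ∀ i j, s i ≠ j → (Cell.g j, Cell.T j i) ∉ M := by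
    intro i j h h1
    obtain ⟨i0, rfl⟩ : ∃ i0, s i0 = j := σ.surjective j
    have := hm.eq_of_fst h1 (F2 i0)
    simp only [Cell.T.injEq, true_and] at this
    exact h (by rw [this])
  have F4 : ∀ i j, s i ≠ j → (Cell.gb j i, Cell.T j i) ∈ M := by
    intro i j h
    exact (hP2' j i).resolve_left (F3 i j h)
  have F5 : ∀ i j (h : A i j = true), s i ≠ j → (Cell.va i j h, Cell.t i j h) ∈ M := by
    intro i j h hne
    rcases hP4' i j h with h1 | ⟨h1, -⟩
    · exact absurd (hm.eq_of_fst h1 (F4 i j hne)) (by simp)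
    · exact h1
  refine ⟨σ, fun i => decide ((Cell.v i, Cell.va i (s i) (hs i)) ∈ M), hs, ?_⟩
  ext ⟨x, y⟩
  rw [mem_MM]
  constructor
  · intro h
    have hc := hm.cov _ h
    simp only at hc
    cases hc with
    | le_o x => rfl
    | le_l x => exact absurd (hm.eq_of_snd h (hP1 x)) (by simp)
    | vq_v i =>
      rcases hpick i with h3 | h3
      · exact absurd (hm.eq_of_fst h h3) (by simp)
      · exact absurd (hm.eq_of_fst h h3) (by simp)
    | vq_q i => exact absurd (hm.eq_of_fst h (hP1 _)) (by simp)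
    | g_a j => exact absurd (hm.eq_of_fst h (hP1 _)) (by simp)
    | g_c j => exact absurd (hm.eq_of_fst h (hP1 _)) (by simp)
    | gb_a j i => exact absurd (hm.eq_of_fst h (hP1 _)) (by simp)
    | gb_b j i => exact absurd (hm.eq_of_fst h (hP1 _)) (by simp)
    | cb_c j i => exact absurd (hm.eq_of_fst h (hP1 _)) (by simp)
    | cb_b j i => exact absurd (hm.eq_of_fst h (hP1 _)) (by simp)
    | va_v i j h' =>
      rcases hpick i with h3 | h3
      · have := hm.eq_of_fst h h3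
        simp only [Cell.va.injEq, true_and] at this
        exact ⟨rfl, this.symm, by simpa using h3⟩
      · exact absurd (hm.eq_of_fst h h3) (by simp)
    | va_a i j h' => exact absurd (hm.eq_of_fst h (hP1 _)) (by simp)
    | vb_v i j h' =>
      rcases hpick i with h3 | h3
      · exact absurd (hm.eq_of_fst h h3) (by simp)
      · have := hm.eq_of_fst h h3
        simp only [Cell.vb.injEq, true_and] at this
        refine ⟨rfl, this.symm, ?_⟩
        simp only [decide_eq_false_iff_not]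
        intro h4
        exact absurd (hm.eq_of_fst h h4) (by simp)
    | vb_b i j h' => exact absurd (hm.eq_of_fst h (hP1 _)) (by simp)
    | T_g j i =>
      refine ⟨rfl, ?_⟩
      by_contra hne
      exact F3 i j hne h
    | T_gb j i =>
      refine ⟨rfl, rfl, ?_⟩
      rintro rfl
      exact absurd (hm.eq_of_snd h (F2 i)) (by simp)
    | T_cb j i =>
      rcases hP2' j i with h3 | h3
      · exact absurd (hm.eq_of_snd h h3) (by simp)
      · exact absurd (hm.eq_of_snd h h3) (by simp)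
    | t_gb i j h' =>
      refine ⟨rfl, rfl, ?_⟩
      by_contra hne
      exact absurd (hm.eq_of_fst h (F4 i j hne)) (by simp)
    | t_va i j h' =>
      refine ⟨rfl, rfl, ?_⟩
      rintro rfl
      exact absurd (hm.eq_of_snd h (F1 i)) (by simp)
    | t_vb i j h' =>
      exfalso
      by_cases hne : s i = j
      · subst hne
        exact absurd (hm.eq_of_snd h (F1 i)) (by simp)
      · exact absurd (hm.eq_of_snd h (F5 i j h' hne)) (by simp)
  · intro h0
    rcases rel_cases h0 with ⟨z, rfl, rfl⟩ | ⟨i, rfl, rfl⟩ | ⟨j, i, h1, rfl, rfl⟩ |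
      ⟨i, h1, h2, rfl, rfl⟩ | ⟨i, h1, h2, rfl, rfl⟩ | ⟨i, h1, rfl, rfl⟩ | ⟨i, j, h1, h2, rfl, rfl⟩
    · exact hP1 z
    · exact F2 i
    · exact F4 i j h1
    · exact of_decide_eq_true h2
    · exact (hpick i).resolve_left (of_decide_eq_false h2)
    · exact F1 i
    · exact F5 i j h1 h2

/-- The cells which determine the size of a surviving matching. -/
def isK : Cell A → Prop
  | .le _ => True
  | .T _ _ => True
  | .t _ _ _ => True
  | .v _ => True
  | _ => False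

/-- The cell of a pair which is counted. -/
def key (p : Cell A × Cell A) : Cell A :=
  match p.2 with
  | .le z => .le z
  | .T j i => .T j i
  | .t i j h => .t i j h
  | _ => p.1

theorem card_MM {σ : Equiv.Perm (Fin n)} (hσ : ∀ i, A i (σ i) = true) (ε : Fin n → Bool) :
    (MM A σ ε).card = (univ.filter (fun x : Cell A => isK x)).card := by
  have hm := mat_MM (A := A) σ ε
  rw [← card_image_of_injOn (f := key) (s := MM A σ ε)]
  · congr 1
    ext z
    simp only [mem_image, mem_filter, mem_univ, true_and]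
    constructor
    · rintro ⟨⟨x, y⟩, hp, rfl⟩
      rcases rel_cases (mem_MM.1 hp) with ⟨z, rfl, rfl⟩ | ⟨i, rfl, rfl⟩ | ⟨j, i, h, rfl, rfl⟩ |
        ⟨i, h, h', rfl, rfl⟩ | ⟨i, h, h', rfl, rfl⟩ | ⟨i, h, rfl, rfl⟩ | ⟨i, j, h, h', rfl, rfl⟩ <;>
      trivial
    · intro hz
      match z, hz with
      | .le x, _ => exact ⟨(.ov x, .le x), mem_MM.2 rfl, rfl⟩
      | .T j i, _ =>
        by_cases h : σ i = j
        · exact ⟨(.g j, .T j i), mem_MM.2 ⟨rfl, h⟩, rfl⟩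
        · exact ⟨(.gb j i, .T j i), mem_MM.2 ⟨rfl, rfl, h⟩, rfl⟩
      | .t i j h', _ =>
        by_cases h : σ i = j
        · exact ⟨(.gb j i, .t i j h'), mem_MM.2 ⟨rfl, rfl, h⟩, rfl⟩
        · exact ⟨(.va i j h', .t i j h'), mem_MM.2 ⟨rfl, rfl, h⟩, rfl⟩
      | .v i, _ =>
        cases h : ε i
        · exact ⟨(.v i, .vb i (σ i) (hσ i)), mem_MM.2 ⟨rfl, rfl, h⟩, rfl⟩
        · exact ⟨(.v i, .va i (σ i) (hσ i)), mem_MM.2 ⟨rfl, rfl, h⟩, rfl⟩
  · rintro ⟨x, y⟩ hp ⟨x', y'⟩ hq he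
    rcases rel_cases (mem_MM.1 hp) with ⟨z, rfl, rfl⟩ | ⟨i, rfl, rfl⟩ | ⟨j, i, h, rfl, rfl⟩ |
      ⟨i, h, h', rfl, rfl⟩ | ⟨i, h, h', rfl, rfl⟩ | ⟨i, h, rfl, rfl⟩ | ⟨i, j, h, h', rfl, rfl⟩ <;>
    rcases rel_cases (mem_MM.1 hq) with ⟨z', rfl, rfl⟩ | ⟨i', rfl, rfl⟩ | ⟨j', i', k, rfl, rfl⟩ |
      ⟨i', k, k', rfl, rfl⟩ | ⟨i', k, k', rfl, rfl⟩ | ⟨i', k, rfl, rfl⟩ |
      ⟨i', j', k, k', rfl, rfl⟩ <;>
    simp_all [key]
    all_goals aesop

theorem MM_inj {σ σ' : Equiv.Perm (Fin n)} {ε ε' : Fin n → Bool}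
    (hσ : ∀ i, A i (σ i) = true) (h : MM A σ ε = MM A σ' ε') : σ = σ' ∧ ε = ε' := by
  have key : ∀ i, σ i = σ' i ∧ ε i = ε' i := by
    intro i
    cases he : ε i
    · have h1 : (Cell.v i, Cell.vb i (σ i) (hσ i)) ∈ MM A σ ε := mem_MM.2 ⟨rfl, rfl, he⟩
      rw [h] at h1
      obtain ⟨-, h2, h3⟩ := mem_MM.1 h1
      exact ⟨h2.symm, h3.symm⟩
    · have h1 : (Cell.v i, Cell.va i (σ i) (hσ i)) ∈ MM A σ ε := mem_MM.2 ⟨rfl, rfl, he⟩
      rw [h] at h1
      obtain ⟨-, h2, h3⟩ := mem_MM.1 h1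
      exact ⟨h2.symm, h3.symm⟩
  exact ⟨Equiv.ext fun i => (key i).1, funext fun i => (key i).2⟩

/-- **The signed number of acyclic matchings is a permanent, up to the sign and a power of two.** -/
theorem signed_count (A : Fin n → Fin n → Bool) :
    ∃ N : ℕ, ∑ M ∈ univ.filter (fun M : Finset (Cell A × Cell A) => Acy Fc M),
      (-1 : ℤ) ^ M.card = (-1) ^ N *
        (2 ^ n * (univ.filter (fun σ : Equiv.Perm (Fin n) => ∀ i, A i (σ i) = true)).card) := by
  refine ⟨(univ.filter (fun x : Cell A => isK x)).card, ?_⟩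
  rw [stages]
  have h1 : ∑ M ∈ univ.filter (fun M : Finset (Cell A × Cell A) => Cls univ univ univ M),
      (-1 : ℤ) ^ M.card =
      ∑ _p ∈ (univ.filter (fun σ : Equiv.Perm (Fin n) => ∀ i, A i (σ i) = true)) ×ˢ
        (univ : Finset (Fin n → Bool)),
        (-1 : ℤ) ^ (univ.filter (fun x : Cell A => isK x)).card := by
    symm
    refine Finset.sum_bij (fun p _ => MM A p.1 p.2) ?_ ?_ ?_ ?_
    · rintro ⟨σ, ε⟩ hp
      simp only [mem_product, mem_filter, mem_univ, true_and, and_true] at hp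
      simp only [mem_filter, mem_univ, true_and]
      exact cls_MM hp ε
    · rintro ⟨σ, ε⟩ hp ⟨σ', ε'⟩ hp' he
      simp only [mem_product, mem_filter, mem_univ, true_and, and_true] at hp
      obtain ⟨h1, h2⟩ := MM_inj hp he
      exact Prod.ext h1 h2
    · intro M hM
      simp only [mem_filter, mem_univ, true_and] at hM
      obtain ⟨σ, ε, hσ, rfl⟩ := exists_MM hM
      exact ⟨(σ, ε), by simp [hσ], rfl⟩
    · rintro ⟨σ, ε⟩ hp
      simp only [mem_product, mem_filter, mem_univ, true_and, and_true] at hp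
      simp only
      rw [card_MM hp]
  rw [h1, Finset.sum_const, card_product, nsmul_eq_mul]
  simp only [card_univ, Fintype.card_fun, Fintype.card_bool, Fintype.card_fin]
  push_cast
  ring

end Pool.Agent.R536.ME
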