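import Pool.Agent.R536.ME.Defs
import Pool.Agent.R536.ME.Count

/-!
# The complex of a matrix as a list of simplices
-/

set_option autoImplicit false

namespace Pool.Agent.NPC.R536ME

open Finset Classical Pool.Agent.R536.ME

/-- The names of the vertices. -/
def nm (k i j : ℕ) : ℕ := Nat.pair k (Nat.pair i j)

theorem nm_inj {k i j k' i' j' : ℕ} : nm k i j = nm k' i' j' ↔ k = k' ∧ i = i' ∧ j = j' := by
  simp [nm, Nat.pair_eq_pair]

/-- The kind of a vertex. -/
def kind (v : ℕ) : ℕ := v.unpair.1

@[simp] theorem kind_nm (k i j : ℕ) : kind (nm k i j) = k := by simp [kind, nm]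

variable {n : ℕ}

/-- Names of ordinary vertices. -/
def onm : Ord n → ℕ
  | .q i => nm 0 i 0
  | .a j => nm 1 j 0
  | .c j => nm 2 j 0
  | .b j i => nm 3 j i

/-- Names of leaves. -/
def lnm : Ord n → ℕ
  | .q i => nm 4 i 0
  | .a j => nm 5 j 0
  | .c j => nm 6 j 0
  | .b j i => nm 7 j i

/-- Names of row vertices. -/
def vnm (i : ℕ) : ℕ := nm 8 i 0

variable {A : Fin n → Fin n → Bool}

/-- The list of the vertices of a cell. -/
def vl : Cell A → List ℕ
  | .ov x => [onm x]
  | .lf x => [lnm x]
  | .le x => [onm x, lnm x]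
  | .v i => [vnm i]
  | .vq i => [nm 0 i 0, vnm i]
  | .g j => [nm 1 j 0, nm 2 j 0]
  | .gb j i => [nm 1 j 0, nm 3 j i]
  | .cb j i => [nm 2 j 0, nm 3 j i]
  | .va i j _ => [nm 1 j 0, vnm i]
  | .vb i j _ => [nm 3 j i, vnm i]
  | .T j i => [nm 1 j 0, nm 2 j 0, nm 3 j i]
  | .t i j _ => [nm 1 j 0, nm 3 j i, vnm i]

theorem vl_sorted (x : Cell A) : (vl x).Pairwise (fun v w => kind v < kind w) := by
  cases x with
  | ov x => simp [vl]
  | lf x => simp [vl]
  | le x => cases x <;> simp [vl, onm, lnm]
  | _ => simp [vl, vnm]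

theorem vl_nodup (x : Cell A) : (vl x).Nodup :=
  (vl_sorted x).imp (fun h e => by subst e; exact lt_irrefl _ h)

theorem onm_inj {x y : Ord n} (h : onm x = onm y) : x = y := by
  cases x <;> cases y <;> simp [onm, nm_inj, Fin.ext_iff] at h ⊢ <;> exact h

theorem lnm_inj {x y : Ord n} (h : lnm x = lnm y) : x = y := by
  cases x <;> cases y <;> simp [lnm, nm_inj, Fin.ext_iff] at h ⊢ <;> exact h

theorem kind_onm (x : Ord n) : kind (onm x) < 4 := by cases x <;> simp [onm]
theorem kind_lnm (x : Ord n) : kind (lnm x) = kind (onm x) + 4 := by cases x <;> simp [onm, lnm]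

theorem vl_inj {x y : Cell A} (h : vl x = vl y) : x = y := by
  cases x with
  | ov x =>
    cases y with
    | ov y => simp only [vl, List.cons.injEq, and_true] at h; rw [onm_inj h]
    | lf y =>
      simp only [vl, List.cons.injEq, and_true] at h
      have h1 := kind_onm x; have h2 := kind_lnm y; rw [← h] at h2; omega
    | v i =>
      simp only [vl, List.cons.injEq, and_true] at h
      have h1 := kind_onm x; rw [h] at h1; simp [vnm] at h1
    | _ => simp [vl] at h
  | lf x =>
    cases y with
    | ov y =>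
      simp only [vl, List.cons.injEq, and_true] at h
      have h1 := kind_onm y; have h2 := kind_lnm x; rw [h] at h2; omega
    | lf y => simp only [vl, List.cons.injEq, and_true] at h; rw [lnm_inj h]
    | v i =>
      simp only [vl, List.cons.injEq, and_true] at h
      have h1 := kind_onm x; have h2 := kind_lnm x; rw [h] at h2; simp [vnm] at h2; omega
    | _ => simp [vl] at h
  | v i =>
    cases y with
    | ov y =>
      simp only [vl, List.cons.injEq, and_true] at h
      have h1 := kind_onm y; rw [← h] at h1; simp [vnm] at h1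
    | lf y =>
      simp only [vl, List.cons.injEq, and_true] at h
      have h1 := kind_onm y; have h2 := kind_lnm y; rw [← h] at h2; simp [vnm] at h2; omega
    | v i =>
      simp only [vl, vnm, List.cons.injEq, and_true, nm_inj, true_and] at h
      rw [Fin.ext h]
    | _ => simp [vl] at h
  | le x =>
    cases y with
    | le y => simp only [vl, List.cons.injEq, and_true] at h; rw [onm_inj h.1]
    | _ =>
      first
      | (simp [vl] at h; done)
      | (simp only [vl, List.cons.injEq, and_true] at h
         have h1 := kind_onm x; have h2 := kind_lnm x; rw [h.1, h.2] at h2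
         simp [vnm] at h2)
  | _ =>
    cases y with
    | le y =>
      first
      | (simp [vl] at h; done)
      | (simp only [vl, List.cons.injEq, and_true] at h
         have h1 := kind_onm y; have h2 := kind_lnm y; rw [← h.1, ← h.2] at h2
         simp [vnm] at h2)
    | _ =>
      first
      | (simp [vl] at h; done)
      | (simp [vl, vnm, nm_inj, Fin.ext_iff] at h ⊢; done)
      | (simp [vl, vnm, nm_inj, Fin.ext_iff] at h ⊢; omega)

/-- The set of the vertices of a cell. -/
def vs (x : Cell A) : Finset ℕ := (vl x).toFinset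

theorem vs_inj : Function.Injective (vs (A := A)) := by
  intro x y h
  have h1 : (vl x).Perm (vl y) :=
    List.perm_of_nodup_nodup_toFinset_eq (vl_nodup x) (vl_nodup y) h
  apply vl_inj
  exact h1.eq_of_pairwise (fun a b _ _ h2 h3 => absurd h2 (lt_asymm h3)) (vl_sorted x)
    (vl_sorted y)

theorem card_vs (x : Cell A) : (vs x).card = (vl x).length :=
  List.toFinset_card_of_nodup (vl_nodup x)

/-- Facets of an edge. -/
theorem sub_pair {s : Finset ℕ} {p q : ℕ} (h : s ⊂ {p, q}) (hc : s.card = 1) :
    s = {p} ∨ s = {q} := by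
  obtain ⟨a, rfl⟩ := card_eq_one.1 hc
  have := h.1 (mem_singleton_self a)
  simp only [mem_insert, mem_singleton] at this
  rcases this with rfl | rfl <;> simp

/-- Facets of a triangle. -/
theorem sub_triple {s : Finset ℕ} {p q r : ℕ} (h : s ⊂ {p, q, r}) (hc : s.card = 2) :
    s = {p, q} ∨ s = {p, r} ∨ s = {q, r} := by
  obtain ⟨a, b, hab, rfl⟩ := card_eq_two.1 hc
  have h1 := h.1 (mem_insert_self a _)
  have h2 := h.1 (mem_insert_of_mem (mem_singleton_self b))
  simp only [mem_insert, mem_singleton] at h1 h2
  rcases h1 with rfl | rfl | rfl <;> rcases h2 with rfl | rfl | rfl <;>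
    simp_all [Finset.pair_comm]

theorem exists_facet {s : Finset ℕ} (hs : s.Nonempty) (y : Cell A) (h : Covers s (vs y)) :
    ∃ x, Fc x y ∧ vs x = s := by
  obtain ⟨h1, h2⟩ := h
  rw [card_vs] at h2
  have h0 := hs.card_pos
  cases y with
  | ov x => simp only [vl, List.length_cons, List.length_nil] at h2; omega
  | lf x => simp only [vl, List.length_cons, List.length_nil] at h2; omega
  | v x => simp only [vl, List.length_cons, List.length_nil] at h2; omega
  | le x =>
    have hc : s.card = 1 := by simp only [vl, List.length_cons, List.length_nil] at h2; omega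
    simp only [vs, vl, List.toFinset_cons, List.toFinset_nil, insert_empty_eq] at h1
    rcases sub_pair h1 hc with rfl | rfl
    · exact ⟨_, Fc.le_o x, by simp [vs, vl]⟩
    · exact ⟨_, Fc.le_l x, by simp [vs, vl]⟩
  | vq i =>
    have hc : s.card = 1 := by simp only [vl, List.length_cons, List.length_nil] at h2; omega
    simp only [vs, vl, List.toFinset_cons, List.toFinset_nil, insert_empty_eq] at h1
    rcases sub_pair h1 hc with rfl | rfl
    · exact ⟨_, Fc.vq_q i, by simp [vs, vl, onm]⟩
    · exact ⟨_, Fc.vq_v i, by simp [vs, vl]⟩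
  | g j =>
    have hc : s.card = 1 := by simp only [vl, List.length_cons, List.length_nil] at h2; omega
    simp only [vs, vl, List.toFinset_cons, List.toFinset_nil, insert_empty_eq] at h1
    rcases sub_pair h1 hc with rfl | rfl
    · exact ⟨_, Fc.g_a j, by simp [vs, vl, onm]⟩
    · exact ⟨_, Fc.g_c j, by simp [vs, vl, onm]⟩
  | gb j i =>
    have hc : s.card = 1 := by simp only [vl, List.length_cons, List.length_nil] at h2; omega
    simp only [vs, vl, List.toFinset_cons, List.toFinset_nil, insert_empty_eq] at h1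
    rcases sub_pair h1 hc with rfl | rfl
    · exact ⟨_, Fc.gb_a j i, by simp [vs, vl, onm]⟩
    · exact ⟨_, Fc.gb_b j i, by simp [vs, vl, onm]⟩
  | cb j i =>
    have hc : s.card = 1 := by simp only [vl, List.length_cons, List.length_nil] at h2; omega
    simp only [vs, vl, List.toFinset_cons, List.toFinset_nil, insert_empty_eq] at h1
    rcases sub_pair h1 hc with rfl | rfl
    · exact ⟨_, Fc.cb_c j i, by simp [vs, vl, onm]⟩
    · exact ⟨_, Fc.cb_b j i, by simp [vs, vl, onm]⟩
  | va i j h =>
    have hc : s.card = 1 := by simp only [vl, List.length_cons, List.length_nil] at h2; omega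
    simp only [vs, vl, List.toFinset_cons, List.toFinset_nil, insert_empty_eq] at h1
    rcases sub_pair h1 hc with rfl | rfl
    · exact ⟨_, Fc.va_a i j h, by simp [vs, vl, onm]⟩
    · exact ⟨_, Fc.va_v i j h, by simp [vs, vl]⟩
  | vb i j h =>
    have hc : s.card = 1 := by simp only [vl, List.length_cons, List.length_nil] at h2; omega
    simp only [vs, vl, List.toFinset_cons, List.toFinset_nil, insert_empty_eq] at h1
    rcases sub_pair h1 hc with rfl | rfl
    · exact ⟨_, Fc.vb_b i j h, by simp [vs, vl, onm]⟩
    · exact ⟨_, Fc.vb_v i j h, by simp [vs, vl]⟩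
  | T j i =>
    have hc : s.card = 2 := by simp only [vl, List.length_cons, List.length_nil] at h2; omega
    simp only [vs, vl, List.toFinset_cons, List.toFinset_nil, insert_empty_eq] at h1
    rcases sub_triple h1 hc with rfl | rfl | rfl
    · exact ⟨_, Fc.T_g j i, by simp [vs, vl]⟩
    · exact ⟨_, Fc.T_gb j i, by simp [vs, vl]⟩
    · exact ⟨_, Fc.T_cb j i, by simp [vs, vl]⟩
  | t i j h =>
    have hc : s.card = 2 := by simp only [vl, List.length_cons, List.length_nil] at h2; omega
    simp only [vs, vl, List.toFinset_cons, List.toFinset_nil, insert_empty_eq] at h1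
    rcases sub_triple h1 hc with rfl | rfl | rfl
    · exact ⟨_, Fc.t_gb i j h, by simp [vs, vl]⟩
    · exact ⟨_, Fc.t_va i j h, by simp [vs, vl]⟩
    · exact ⟨_, Fc.t_vb i j h, by simp [vs, vl]⟩

theorem vs_subset_of_Fc {x y : Cell A} (h : Fc x y) : vs x ⊆ vs y := by
  intro p
  cases h <;> simp only [vs, vl, onm, List.mem_toFinset, List.mem_cons, List.not_mem_nil,
    or_false] <;> tauto

theorem length_of_Fc {x y : Cell A} (h : Fc x y) : (vl y).length = (vl x).length + 1 := by
  cases h <;> simp [vl]

theorem covers_vs {x y : Cell A} : Covers (vs x) (vs y) ↔ Fc x y := by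
  constructor
  · intro h
    obtain ⟨x', hx', he⟩ := exists_facet (by
      rw [← card_pos, card_vs]
      cases x <;> simp [vl]) y h
    rwa [← vs_inj he]
  · intro h
    have h1 := length_of_Fc h
    refine ⟨⟨vs_subset_of_Fc h, fun h2 => ?_⟩, by rw [card_vs, card_vs, h1]⟩
    have := card_le_card h2
    rw [card_vs, card_vs] at this
    omega

/-- The complex of the matrix. -/
noncomputable def cx (A : Fin n → Fin n → Bool) : Finset (Finset ℕ) :=
  univ.map ⟨vs (A := A), vs_inj⟩

theorem mem_cx {s : Finset ℕ} : s ∈ cx A ↔ ∃ x : Cell A, vs x = s := by simp [cx]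

theorem vs_nonempty (x : Cell A) : (vs x).Nonempty := by
  rw [← card_pos, card_vs]
  cases x <;> simp [vl]

theorem down_aux : ∀ (k : ℕ) (y : Cell A), (vs y).card = k → ∀ s : Finset ℕ, s.Nonempty →
    s ⊆ vs y → ∃ x : Cell A, vs x = s := by
  intro k
  induction k with
  | zero =>
    intro y hy
    have := (vs_nonempty y).card_pos
    omega
  | succ k ih =>
    intro y hy s hs hsub
    by_cases he : s = vs y
    · exact ⟨y, he.symm⟩
    · obtain ⟨p, hp, hps⟩ := exists_of_ssubset (hsub.ssubset_of_ne he)
      have h1 : s ⊆ (vs y).erase p := fun q hq => mem_erase.2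
        ⟨fun e => hps (e ▸ hq), hsub hq⟩
      have h2 : Covers ((vs y).erase p) (vs y) := by
        refine ⟨erase_ssubset hp, ?_⟩
        rw [card_erase_of_mem hp]
        have := (vs_nonempty y).card_pos
        omega
      obtain ⟨x, hx, hxe⟩ := exists_facet (hs.mono h1) y h2
      refine ih x ?_ s hs (hxe ▸ h1)
      rw [hxe, card_erase_of_mem hp]
      omega

theorem cx_complex (h0 : 0 < n) : IsComplex (cx A) where
  nonempty := ⟨vs (Cell.v ⟨0, h0⟩), mem_cx.2 ⟨_, rfl⟩⟩
  faces_nonempty := by
    intro s hs
    obtain ⟨x, rfl⟩ := mem_cx.1 hs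
    exact vs_nonempty x
  down := by
    intro s hs t ht hts
    obtain ⟨x, rfl⟩ := mem_cx.1 hs
    exact mem_cx.2 (down_aux _ x rfl t ht hts)

theorem cx_dim (h0 : 0 < n) : dim (cx A) = 2 := by
  have h1 : (cx A).sup Finset.card = 3 := by
    apply le_antisymm
    · refine Finset.sup_le fun s hs => ?_
      obtain ⟨x, rfl⟩ := mem_cx.1 hs
      rw [card_vs]
      cases x <;> simp [vl]
    · have h2 : vs (Cell.T (A := A) ⟨0, h0⟩ ⟨0, h0⟩) ∈ cx A := mem_cx.2 ⟨_, rfl⟩
      have h3 := Finset.le_sup (f := Finset.card) h2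
      rw [card_vs] at h3
      simpa [vl] using h3
  rw [dim, h1]

end Pool.Agent.NPC.R536ME
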