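import Pool.Agent.R536.ME.Abs

/-!
The complex of a square 0-1 matrix: cells, facets, and the elimination of the leaves.
-/

set_option autoImplicit false

namespace Pool.Agent.R536.ME

open Finset Classical

/-- Ordinary vertices. -/
inductive Ord (n : ℕ) : Type
  | q (i : Fin n)
  | a (j : Fin n)
  | c (j : Fin n)
  | b (j i : Fin n)

/-- The cells of the complex of the matrix `A`. -/
inductive Cell {n : ℕ} (A : Fin n → Fin n → Bool) : Type
  | ov (x : Ord n)
  | lf (x : Ord n)
  | le (x : Ord n)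
  | v (i : Fin n)
  | vq (i : Fin n)
  | g (j : Fin n)
  | gb (j i : Fin n)
  | cb (j i : Fin n)
  | va (i j : Fin n) (h : A i j = true)
  | vb (i j : Fin n) (h : A i j = true)
  | T (j i : Fin n)
  | t (i j : Fin n) (h : A i j = true)

/-- `Fc x y`: the cell `x` is a facet of the cell `y`. -/
inductive Fc {n : ℕ} {A : Fin n → Fin n → Bool} : Cell A → Cell A → Prop
  | le_o (x : Ord n) : Fc (.ov x) (.le x)
  | le_l (x : Ord n) : Fc (.lf x) (.le x)
  | vq_v (i : Fin n) : Fc (.v i) (.vq i)
  | vq_q (i : Fin n) : Fc (.ov (.q i)) (.vq i)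
  | g_a (j : Fin n) : Fc (.ov (.a j)) (.g j)
  | g_c (j : Fin n) : Fc (.ov (.c j)) (.g j)
  | gb_a (j i : Fin n) : Fc (.ov (.a j)) (.gb j i)
  | gb_b (j i : Fin n) : Fc (.ov (.b j i)) (.gb j i)
  | cb_c (j i : Fin n) : Fc (.ov (.c j)) (.cb j i)
  | cb_b (j i : Fin n) : Fc (.ov (.b j i)) (.cb j i)
  | va_v (i j : Fin n) (h : A i j = true) : Fc (.v i) (.va i j h)
  | va_a (i j : Fin n) (h : A i j = true) : Fc (.ov (.a j)) (.va i j h)
  | vb_v (i j : Fin n) (h : A i j = true) : Fc (.v i) (.vb i j h)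
  | vb_b (i j : Fin n) (h : A i j = true) : Fc (.ov (.b j i)) (.vb i j h)
  | T_g (j i : Fin n) : Fc (.g j) (.T j i)
  | T_gb (j i : Fin n) : Fc (.gb j i) (.T j i)
  | T_cb (j i : Fin n) : Fc (.cb j i) (.T j i)
  | t_gb (i j : Fin n) (h : A i j = true) : Fc (.gb j i) (.t i j h)
  | t_va (i j : Fin n) (h : A i j = true) : Fc (.va i j h) (.t i j h)
  | t_vb (i j : Fin n) (h : A i j = true) : Fc (.vb i j h) (.t i j h)

variable {n : ℕ} {A : Fin n → Fin n → Bool}

instance : Finite (Ord n) := by
  let f : Ord n → Fin n ⊕ Fin n ⊕ Fin n ⊕ (Fin n × Fin n) := fun x => match x with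
    | .q i => .inl i
    | .a j => .inr (.inl j)
    | .c j => .inr (.inr (.inl j))
    | .b j i => .inr (.inr (.inr (j, i)))
  refine Finite.of_injective f ?_
  intro x y h
  cases x <;> cases y <;> simp_all [f]

instance : Finite (Cell A) := by
  let f : Cell A → (Fin 3 × Ord n) ⊕ (Fin 3 × Fin n) ⊕ (Fin 6 × Fin n × Fin n) := fun x =>
    match x with
    | .ov x => .inl (0, x)
    | .lf x => .inl (1, x)
    | .le x => .inl (2, x)
    | .v i => .inr (.inl (0, i))
    | .vq i => .inr (.inl (1, i))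
    | .g i => .inr (.inl (2, i))
    | .gb j i => .inr (.inr (0, j, i))
    | .cb j i => .inr (.inr (1, j, i))
    | .va i j _ => .inr (.inr (2, j, i))
    | .vb i j _ => .inr (.inr (3, j, i))
    | .T j i => .inr (.inr (4, j, i))
    | .t i j _ => .inr (.inr (5, j, i))
  refine Finite.of_injective f ?_
  intro x y h
  cases x <;> cases y <;> simp_all [f]

noncomputable instance : Fintype (Ord n) := Fintype.ofFinite _
noncomputable instance : Fintype (Cell A) := Fintype.ofFinite _

/-- Every ordinary vertex is matched with its leaf edge. -/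
def P1 (M : Finset (Cell A × Cell A)) : Prop := ∀ x, (Cell.ov x, Cell.le x) ∈ M

theorem leaf_free {M : Finset (Cell A × Cell A)} (h : Mat Fc M) {x : Ord n}
    (h1 : (Cell.ov x, Cell.le x) ∉ M) (h2 : (Cell.lf x, Cell.le x) ∉ M) :
    ∀ q ∈ M, q.1 ≠ Cell.lf x ∧ q.1 ≠ Cell.le x ∧ q.2 ≠ Cell.lf x ∧ q.2 ≠ Cell.le x := by
  rintro ⟨y, z⟩ hq
  have hc := h.cov _ hq
  simp only at hc
  refine ⟨?_, ?_, ?_, ?_⟩
  · rintro rfl
    cases hc
    exact h2 hq
  · rintro rfl
    cases hc
  · rintro rfl
    cases hc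
  · rintro rfl
    cases hc
    · exact h1 hq
    · exact h2 hq

theorem acy_insert_leaf {M : Finset (Cell A × Cell A)} (h : Acy Fc M) {x : Ord n}
    (h1 : (Cell.ov x, Cell.le x) ∉ M) (h2 : (Cell.lf x, Cell.le x) ∉ M) :
    Acy Fc (insert (Cell.lf x, Cell.le x) M) := by
  have hfree := leaf_free h.mat h1 h2
  refine ⟨h.mat.insert (Fc.le_l x) hfree, ?_⟩
  -- the leaf has no incoming arc
  have hsrc : ∀ y, ¬ arc Fc (insert (Cell.lf x, Cell.le x) M) y (Cell.lf x) := by
    rintro y (⟨hc, hn⟩ | hm)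
    · cases hc
      exact hn (mem_insert_self _ _)
    · rcases mem_insert.1 hm with e | hm
      · simp only [Prod.mk.injEq] at e
        cases e.2
      · exact (hfree _ hm).2.2.1 rfl
  intro z hz
  by_cases hzl : z = Cell.lf x
  · subst hzl
    obtain ⟨b, -, hb⟩ := Relation.TransGen.tail'_iff.1 hz
    exact hsrc _ hb
  · refine h.acyclic z (transGen_avoid_source hsrc ?_ hzl hz)
    rintro u w hu hw (⟨hc, hn⟩ | hm)
    · exact Or.inl ⟨hc, fun hm => hn (mem_insert_of_mem hm)⟩
    · rcases mem_insert.1 hm with e | hm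
      · exact absurd (congrArg Prod.fst e) hu
      · exact Or.inr hm

theorem acy_erase_leaf {M : Finset (Cell A × Cell A)} (h : Acy Fc M) {x : Ord n}
    (h2 : (Cell.lf x, Cell.le x) ∈ M) :
    Acy Fc (M.erase (Cell.lf x, Cell.le x)) := by
  refine ⟨h.mat.erase _, ?_⟩
  have hsink : ∀ y, ¬ arc Fc (M.erase (Cell.lf x, Cell.le x)) (Cell.lf x) y := by
    rintro y (⟨hc, hn⟩ | hm)
    · cases hc
    · have hm' := mem_of_mem_erase hm
      have hc := h.mat.cov _ hm'
      simp only at hc
      cases hc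
      exact (notMem_erase _ _) hm
  intro z hz
  by_cases hzl : z = Cell.lf x
  · subst hzl
    obtain ⟨b, hb, -⟩ := Relation.TransGen.head'_iff.1 hz
    exact hsink _ hb
  · refine h.acyclic z (transGen_avoid_sink hsink ?_ hzl hz)
    rintro u w hu hw (⟨hc, hn⟩ | hm)
    · refine Or.inl ⟨hc, fun hm => hn (mem_erase.2 ⟨?_, hm⟩)⟩
      intro e
      exact hw (congrArg Prod.fst e)
    · exact Or.inr (mem_of_mem_erase hm)

theorem stage1_aux (s : Finset (Ord n)) :
    ∑ M ∈ univ.filter (fun M : Finset (Cell A × Cell A) => Acy Fc M), (-1 : ℤ) ^ M.card =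
      ∑ M ∈ univ.filter (fun M : Finset (Cell A × Cell A) =>
        Acy Fc M ∧ ∀ x ∈ s, (Cell.ov x, Cell.le x) ∈ M), (-1 : ℤ) ^ M.card := by
  induction s using Finset.induction_on with
  | empty => simp
  | insert x s hx ih =>
    rw [ih, sum_restrict _ (fun M => (Cell.ov x, Cell.le x) ∈ M)]
    · congr 1
      ext M
      simp only [mem_filter, mem_univ, true_and, mem_insert, forall_eq_or_imp]
      tauto
    · refine sum_toggle _ (Cell.lf x, Cell.le x) ?_ ?_
      · intro M hM hp
        simp only [mem_filter, mem_univ, true_and] at hM ⊢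
        obtain ⟨⟨h1, h2⟩, h3⟩ := hM
        refine ⟨⟨acy_insert_leaf h1 h3 hp, fun y hy => mem_insert_of_mem (h2 y hy)⟩, ?_⟩
        intro h4
        rcases mem_insert.1 h4 with e | h4
        · simp at e
        · exact h3 h4
      · intro M hM hp
        simp only [mem_filter, mem_univ, true_and] at hM ⊢
        obtain ⟨⟨h1, h2⟩, h3⟩ := hM
        refine ⟨⟨acy_erase_leaf h1 hp, fun y hy => mem_erase.2 ⟨by simp, h2 y hy⟩⟩, ?_⟩
        intro h4
        exact h3 (mem_of_mem_erase h4)

/-! ### All matchings with `P1` are acyclic -/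

/-- The rank of a cell. -/
noncomputable def rk (M : Finset (Cell A × Cell A)) : Cell A → ℕ
  | .lf _ => 0
  | .le _ => 1
  | .ov _ => 2
  | .v _ => 4
  | .vq i => if (Cell.v i, Cell.vq i) ∈ M then 3 else 5
  | .va i j h => if (Cell.v i, Cell.va i j h) ∈ M then 3 else
      if (Cell.va i j h, Cell.t i j h) ∈ M then 13 else 5
  | .vb i j h => if (Cell.v i, Cell.vb i j h) ∈ M then 3 else
      if (Cell.vb i j h, Cell.t i j h) ∈ M then 13 else 5
  | .g j => if ∃ i, (Cell.g j, Cell.T j i) ∈ M then 9 else 5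
  | .gb j i => if (Cell.gb j i, Cell.T j i) ∈ M then 11 else
      if ∃ h, (Cell.gb j i, Cell.t i j h) ∈ M then 7 else 5
  | .cb j i => if (Cell.cb j i, Cell.T j i) ∈ M then 13 else 5
  | .T j i => if (Cell.g j, Cell.T j i) ∈ M then 8 else
      if (Cell.gb j i, Cell.T j i) ∈ M then 10 else 12
  | .t i j h => if (Cell.gb j i, Cell.t i j h) ∈ M then 6 else 12

theorem acy_of_P1 {M : Finset (Cell A × Cell A)} (h : Mat Fc M) (hP : P1 M) : Acy Fc M := by
  refine ⟨h, no_cycle_of_rank (rk M) ?_⟩
  rintro x y (⟨hc, hn⟩ | hm)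
  · -- downward arcs
    cases hc with
    | le_o x => exact absurd (hP x) hn
    | le_l x => simp [rk]
    | vq_v i => simp only [rk, if_neg hn]; omega
    | vq_q i => simp only [rk]; split_ifs <;> omega
    | g_a j => simp only [rk]; split_ifs <;> omega
    | g_c j => simp only [rk]; split_ifs <;> omega
    | gb_a j i => simp only [rk]; split_ifs <;> omega
    | gb_b j i => simp only [rk]; split_ifs <;> omega
    | cb_c j i => simp only [rk]; split_ifs <;> omega
    | cb_b j i => simp only [rk]; split_ifs <;> omega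
    | va_v i j h => simp only [rk, if_neg hn]; split_ifs <;> omega
    | va_a i j h => simp only [rk]; split_ifs <;> omega
    | vb_v i j h => simp only [rk, if_neg hn]; split_ifs <;> omega
    | vb_b i j h => simp only [rk]; split_ifs <;> omega
    | T_g j i => simp only [rk, if_neg hn]; split_ifs <;> omega
    | T_gb j i => simp only [rk, if_neg hn]; split_ifs <;> omega
    | T_cb j i => simp only [rk, if_neg hn]; split_ifs <;> omega
    | t_gb i j h' =>
      have h2 : ¬ ∃ h, (Cell.gb j i, Cell.t i j h) ∈ M := fun ⟨_, h3⟩ => hn h3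
      simp only [rk, if_neg hn, if_neg h2]; split_ifs <;> omega
    | t_va i j h => simp only [rk, if_neg hn]; split_ifs <;> omega
    | t_vb i j h => simp only [rk, if_neg hn]; split_ifs <;> omega
  · -- upward arcs
    have hc := h.cov _ hm
    simp only at hc
    cases hc with
    | le_o x => simp [rk]
    | le_l x => exact absurd (h.eq_of_snd hm (hP x)) (by simp)
    | vq_v i => simp only [rk, if_pos hm]; omega
    | vq_q i => exact absurd (h.eq_of_fst hm (hP _)) (by simp)
    | g_a j => exact absurd (h.eq_of_fst hm (hP _)) (by simp)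
    | g_c j => exact absurd (h.eq_of_fst hm (hP _)) (by simp)
    | gb_a j i => exact absurd (h.eq_of_fst hm (hP _)) (by simp)
    | gb_b j i => exact absurd (h.eq_of_fst hm (hP _)) (by simp)
    | cb_c j i => exact absurd (h.eq_of_fst hm (hP _)) (by simp)
    | cb_b j i => exact absurd (h.eq_of_fst hm (hP _)) (by simp)
    | va_v i j h => simp only [rk, if_pos hm]; omega
    | va_a i j h' => exact absurd (h.eq_of_fst hm (hP _)) (by simp)
    | vb_v i j h => simp only [rk, if_pos hm]; omega
    | vb_b i j h' => exact absurd (h.eq_of_fst hm (hP _)) (by simp)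
    | T_g j i =>
      have h2 : ∃ i, (Cell.g j, Cell.T j i) ∈ M := ⟨i, hm⟩
      simp only [rk, if_pos hm, if_pos h2]; omega
    | T_gb j i =>
      have h2 : (Cell.g j, Cell.T j i) ∉ M := fun h3 => by
        have := h.eq_of_snd hm h3; simp at this
      simp only [rk, if_pos hm, if_neg h2]; omega
    | T_cb j i =>
      have h2 : (Cell.g j, Cell.T j i) ∉ M := fun h3 => by
        have := h.eq_of_snd hm h3; simp at this
      have h4 : (Cell.gb j i, Cell.T j i) ∉ M := fun h3 => by
        have := h.eq_of_snd hm h3; simp at this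
      simp only [rk, if_pos hm, if_neg h2, if_neg h4]; omega
    | t_gb i j h' =>
      have h2 : ∃ h, (Cell.gb j i, Cell.t i j h) ∈ M := ⟨h', hm⟩
      have h4 : (Cell.gb j i, Cell.T j i) ∉ M := fun h3 => by
        have := h.eq_of_fst hm h3; simp at this
      simp only [rk, if_pos hm, if_pos h2, if_neg h4]; omega
    | t_va i j h' =>
      have h4 : (Cell.v i, Cell.va i j h') ∉ M := fun h3 => h.not_mid (by simp) h3 hm
      have h5 : (Cell.gb j i, Cell.t i j h') ∉ M := fun h3 => by
        have := h.eq_of_snd hm h3; simp at this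
      simp only [rk, if_pos hm, if_neg h4, if_neg h5]; omega
    | t_vb i j h' =>
      have h4 : (Cell.v i, Cell.vb i j h') ∉ M := fun h3 => h.not_mid (by simp) h3 hm
      have h5 : (Cell.gb j i, Cell.t i j h') ∉ M := fun h3 => by
        have := h.eq_of_snd hm h3; simp at this
      simp only [rk, if_pos hm, if_neg h4, if_neg h5]; omega

theorem stage1 :
    ∑ M ∈ univ.filter (fun M : Finset (Cell A × Cell A) => Acy Fc M), (-1 : ℤ) ^ M.card =
      ∑ M ∈ univ.filter (fun M : Finset (Cell A × Cell A) => Mat Fc M ∧ P1 M),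
        (-1 : ℤ) ^ M.card := by
  rw [stage1_aux univ]
  congr 1
  ext M
  simp only [mem_filter, mem_univ, true_and, true_implies]
  exact ⟨fun h => ⟨h.1.mat, h.2⟩, fun h => ⟨acy_of_P1 h.1 h.2, h.2⟩⟩

end Pool.Agent.R536.ME
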