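import Pool.Agent.H549R2.NRed

/-!
# Acyclic matchings, the Morse ensemble polynomial, and function problems as oracles
-/

set_option autoImplicit false

namespace Pool.Agent.NPC.R536ME

open Finset Classical Pool.Agent.NPC.Cnt

/-! ### Complexes and the Morse ensemble polynomial -/

/-- `X` is the set of all (nonempty) simplices of a finite simplicial complex. -/
structure IsComplex (X : Finset (Finset ℕ)) : Prop where
  nonempty : X.Nonempty
  faces_nonempty : ∀ s ∈ X, s.Nonempty
  down : ∀ s ∈ X, ∀ t : Finset ℕ, t.Nonempty → t ⊆ s → t ∈ X

/-- The dimension of the complex `X`. -/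
def dim (X : Finset (Finset ℕ)) : ℕ := X.sup Finset.card - 1

/-- `(s, t)` is a covering pair: `s ⊂ t` and `dim t = dim s + 1`. -/
def Covers (s t : Finset ℕ) : Prop := s ⊂ t ∧ t.card = s.card + 1

/-- The arcs of the Hasse diagram of the face poset after the arcs of the pairs in `M` are
reversed: from `x` down to `y` when `(y, x)` is a covering pair not in `M`, and from `x` up to `y`
when `(x, y)` is in `M`. -/
def HArc (X : Finset (Finset ℕ)) (M : Finset (Finset ℕ × Finset ℕ)) (x y : Finset ℕ) : Prop :=
  (x ∈ X ∧ y ∈ X ∧ Covers y x ∧ (y, x) ∉ M) ∨ (x, y) ∈ M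

/-- `M` is an acyclic matching on the face poset of `X`. -/
structure IsAcyclicMatching (X : Finset (Finset ℕ)) (M : Finset (Finset ℕ × Finset ℕ)) :
    Prop where
  pairs : ∀ p ∈ M, p.1 ∈ X ∧ p.2 ∈ X ∧ Covers p.1 p.2
  disj : ∀ p ∈ M, ∀ q ∈ M, ∀ s : Finset ℕ, (s = p.1 ∨ s = p.2) → (s = q.1 ∨ s = q.2) → p = q
  acyclic : ∀ x, ¬ Relation.TransGen (HArc X M) x x

/-- The set of all acyclic matchings on the face poset of `X`. -/
noncomputable def acyclicMatchings (X : Finset (Finset ℕ)) :
    Finset (Finset (Finset ℕ × Finset ℕ)) :=
  ((X ×ˢ X).powerset).filter (fun M => IsAcyclicMatching X M)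

/-- The number of critical `i`-simplices. -/
noncomputable def crit (X : Finset (Finset ℕ)) (M : Finset (Finset ℕ × Finset ℕ)) (i : ℕ) : ℕ :=
  (X.filter (fun s => s.card = i + 1 ∧ ∀ p ∈ M, s ≠ p.1 ∧ s ≠ p.2)).card

/-- The Morse ensemble polynomial of the complex `X`. -/
noncomputable def ME (X : Finset (Finset ℕ)) : MvPolynomial ℕ ℕ :=
  ∑ M ∈ acyclicMatchings X, ∏ i ∈ range (dim X + 1), (MvPolynomial.X i) ^ crit X M i

/-! ### The computational problem -/

/-- The set of simplices given by a list of lists of vertices. -/
def cplx (K : List (List ℕ)) : Finset (Finset ℕ) := (K.map List.toFinset).toFinset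

/-- An input of the problem: the list of all simplices of a finite simplicial complex, each
simplex listed exactly once, by the list of its vertices. -/
structure IsInput (K : List (List ℕ)) : Prop where
  simplex_nodup : ∀ s ∈ K, s.Nodup
  nodup : (K.map List.toFinset).Nodup
  complex : IsComplex (cplx K)

/-- The monomial with the given list of exponents. -/
noncomputable def mono (e : List ℕ) : MvPolynomial ℕ ℕ :=
  ∏ i ∈ range e.length, (MvPolynomial.X i) ^ e.getD i 0

/-- `L` is a list of all the monomials with nonzero coefficient of the Morse ensemble polynomial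
of `X` (each one once, given by the list of its exponents) with their coefficients. -/
structure IsOutput (X : Finset (Finset ℕ)) (L : List (List ℕ × ℕ)) : Prop where
  exps : ∀ p ∈ L, p.1.length = dim X + 1
  coeffs : ∀ p ∈ L, p.2 ≠ 0
  nodup : (L.map Prod.fst).Nodup
  sum : ME X = (L.map fun p => MvPolynomial.C p.2 * mono p.1).sum

/-- `O` solves the problem of computing the Morse ensemble polynomial on the `2`-dimensional
complexes: for the code of the list of all simplices of a `2`-dimensional complex it returns the
code of a list of the monomials with nonzero coefficient, with their coefficients (in binary).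
Its behaviour on all other strings is arbitrary. -/
def ComputesME2 (O : List Bool → List Bool) : Prop :=
  ∀ K : List (List ℕ), IsInput K → dim (cplx K) = 2 →
    ∃ L : List (List ℕ × ℕ), O (bits K) = bits L ∧ IsOutput (cplx K) L

/-- Polynomial-time Turing reducibility of a counting function `f` to a function `O` from strings
to strings.  The algorithm is given by its function `next`, which from the input `x` and the list
of the answers received so far computes in polynomial time either the next query (`Sum.inl q`) or
the final output (`Sum.inr n`).  On input `x` it makes at most `p(|x|)` queries, the queries and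
the answers have length at most `p(|x|)`, and the final output is `f x`. -/
def TuringReducesTo (f : List Bool → ℕ) (O : List Bool → List Bool) : Prop :=
  ∃ (next : List Bool × List (List Bool) → List Bool ⊕ ℕ) (N : List Bool → List Bool)
    (p : Polynomial ℕ),
    PolyTime N ∧ (∀ s, N (bits s) = bits (next s)) ∧
    ∀ x, ∃ ans : List (List Bool), ans.length ≤ p.eval x.length ∧
      (∀ i (hi : i < ans.length), ∃ q : List Bool, next (x, ans.take i) = Sum.inl q ∧
        q.length ≤ p.eval x.length ∧ ans[i] = O q ∧ (O q).length ≤ p.eval x.length) ∧
      next (x, ans) = Sum.inr (f x)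

/-! ### Nonadaptive reductions -/

/-- Nonadaptive polynomial-time reductions to a function from strings to strings. -/
theorem turingReducesTo_of_list {α : Type} [TEnc α] {f : List Bool → ℕ}
    {O : List Bool → List Bool}
    (qs : List Bool → List α) (post : List Bool × List (List Bool) → ℕ) (hqs : Poly qs)
    (hpost : Poly post)
    (hf : ∀ x, f x = post (x, (qs x).map (fun a => O (bits a))))
    (r : Polynomial ℕ) (hr : ∀ x, ∀ a ∈ qs x, (O (bits a)).length ≤ r.eval (sz a)) :
    TuringReducesTo f O := by
  let next : List Bool × List (List Bool) → List Bool ⊕ ℕ := fun s =>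
    match (qs s.1)[s.2.length]? with
    | none => Sum.inr (post s)
    | some a => Sum.inl (bits a)
  have hbits : Poly (fun a : α => bits a) := poly_enc.comp (f := fun a : α => toT a)
    (Poly.toT' Poly.id)
  have hnext : Poly next := by
    refine (Poly.optCases (o := fun s : List Bool × List (List Bool) => (qs s.1)[s.2.length]?)
      (g := fun s => Sum.inr (post s)) (h := fun _ a => Sum.inl (bits a))
      (Poly.getElem? (hqs.comp (Poly.fst Poly.id)) (Poly.length (Poly.snd Poly.id)))
      (Poly.inr hpost) (Poly.inl (hbits.comp (Poly.snd Poly.id)))).congr ?_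
    intro s
    simp only [next]
    cases (qs s.1)[s.2.length]? <;> rfl
  obtain ⟨c1, hc1⟩ := hqs.sz_le
  have hdec : Poly (fun s : List Bool => ((decode s).getD ([], []) :
      List Bool × List (List Bool))) :=
    (Poly.optCases (o := fun s : List Bool => (decode s : Option (List Bool × List (List Bool))))
      (g := fun _ => ([], [])) (h := fun _ b => b) poly_decode (Poly.const _)
      (Poly.snd Poly.id)).congr fun s => by
        cases (decode s : Option (List Bool × List (List Bool))) <;> rfl
  refine ⟨next, fun s => bits (next ((decode s).getD ([], []))),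
    c1.comp (Polynomial.C 4 * Polynomial.X + Polynomial.C 1) +
      r.comp (c1.comp (Polynomial.C 4 * Polynomial.X + Polynomial.C 1)), ?_, ?_, ?_⟩
  · apply PC.toPolyTime
    have h0 : Poly (fun s : List Bool => next ((decode s).getD ([], []))) :=
      Poly.comp (g := next) (f := fun s : List Bool =>
        ((decode s).getD ([], []) : List Bool × List (List Bool))) hnext hdec
    exact PC.comp (g := fun s : List Bool => next ((decode s).getD ([], [])))
      (f := fun s : List Bool => s) h0 PC.ofBits
  · intro s
    have : decode (bits s) = some s := decode_eq_some.2 rfl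
    simp only [this, Option.getD_some]
  · intro x
    have hsx : sz x ≤ 4 * x.length + 1 := sz_listBool_le x
    have e1 : (c1.comp (Polynomial.C 4 * Polynomial.X + Polynomial.C 1)).eval x.length =
        c1.eval (4 * x.length + 1) := by
      simp [Polynomial.eval_comp]
    have e2 : (r.comp (c1.comp (Polynomial.C 4 * Polynomial.X + Polynomial.C 1))).eval x.length =
        r.eval (c1.eval (4 * x.length + 1)) := by
      simp [Polynomial.eval_comp]
    have h1 : sz (qs x) ≤ c1.eval (4 * x.length + 1) := (hc1 x).trans (eval_mono c1 hsx)
    refine ⟨(qs x).map (fun a => O (bits a)), ?_, ?_, ?_⟩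
    · rw [Polynomial.eval_add, e1, e2, List.length_map]
      have := length_lt_sz (qs x)
      omega
    · intro i hi
      rw [List.length_map] at hi
      have hq : (qs x)[i]'hi ∈ qs x := List.getElem_mem hi
      have hsz := sz_le_of_mem hq
      refine ⟨bits ((qs x)[i]'hi), ?_, ?_, ?_, ?_⟩
      · simp only [next]
        have hl : ((List.map (fun a => O (bits a)) (qs x)).take i).length = i := by simp; omega
        rw [hl, List.getElem?_eq_getElem hi]
      · rw [bits_length, Polynomial.eval_add, e1, e2]
        omega
      · rw [List.getElem_map]
      · rw [Polynomial.eval_add, e1, e2]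
        have h3 := hr x ((qs x)[i]'hi) hq
        have h4 := eval_mono r (hsz.le.trans h1)
        omega
    · simp only [next]
      have hl : (List.map (fun a => O (bits a)) (qs x)).length = (qs x).length := by simp
      rw [hl, List.getElem?_eq_none le_rfl]
      simp only
      rw [hf x]

end Pool.Agent.NPC.R536ME
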