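import Pool.Agent.R536.ME.KList

/-!
# `#P`-hardness of the Morse ensemble polynomial
-/

set_option autoImplicit false

namespace Pool.Agent.NPC.R536ME

open Finset Classical Pool.Agent.R536.ME Pool.Agent.NPC.Cnt
open Pool.Agent.H549R2.Convex (F)

/-- The matrix as a function. -/
def mfn (M : List (List Bool)) : Fin M.length → Fin M.length → Bool := fun i j => entM M i j

theorem F_eq (M : List (List Bool)) (h : ∀ r ∈ M, r.length = M.length) :
    F M = (univ.filter (fun σ : Equiv.Perm (Fin M.length) => ∀ i, mfn M i (σ i) = true)).card := by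
  unfold F
  rw [if_pos h, Matrix.permanent]
  have h1 : ∀ σ : Equiv.Perm (Fin M.length), (∏ i, (Matrix.of fun i j : Fin M.length =>
      if (M.getD i.val []).getD j.val false = true then 1 else 0) (σ i) i : ℕ) =
      if ∀ i, mfn M i (σ⁻¹ i) = true then 1 else 0 := by
    intro σ
    simp only [Matrix.of_apply]
    rw [Finset.prod_ite_zero]
    simp only [mem_univ, true_implies, prod_const_one]
    congr 1
    apply propext
    constructor
    · intro h2 i
      have := h2 (σ⁻¹ i)
      simpa [mfn, entM] using this
    · intro h2 i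
      have := h2 (σ i)
      simpa [mfn, entM] using this
  rw [sum_congr rfl (fun σ _ => h1 σ)]
  rw [← Equiv.sum_comp (Equiv.inv (Equiv.Perm (Fin M.length)))]
  simp only [Equiv.inv_apply, inv_inv]
  rw [sum_boole]
  rfl

/-- The permanent of the matrix from the answer of the oracle. -/
def fromAns (p : List (List Bool) × List Bool) : ℕ :=
  if (p.1.all fun r => decide (r.length = p.1.length)) = true then
    (if p.1.length = 0 then 1 else
      aval (((decode p.2 : Option (List (List ℕ × ℕ)))).getD []) / 2 ^ p.1.length)
  else 0

theorem fromAns_correct {O : List Bool → List Bool} (hO : ComputesME2 O)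
    (M : List (List Bool)) : fromAns (M, O (bits (KM M))) = F M := by
  unfold fromAns
  simp only [List.all_eq_true, decide_eq_true_eq]
  by_cases h : ∀ r ∈ M, r.length = M.length
  · rw [if_pos h]
    by_cases h0 : M.length = 0
    · rw [if_pos h0, F_eq M h]
      have : IsEmpty (Fin M.length) := by rw [h0]; infer_instance
      symm
      rw [filter_true_of_mem (fun σ _ i => this.elim i), card_univ]
      exact Fintype.card_unique
    · rw [if_neg h0]
      have hpos : 0 < M.length := Nat.pos_of_ne_zero h0
      have hK : KM M = KL M.length (entM M) := by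
        unfold KM
        rw [max_eq_left hpos]
      have hcx : cplx (KM M) = cx (mfn M) := by rw [hK, cplx_KL]; rfl
      obtain ⟨L, hL1, hL2⟩ := hO (KM M) (by rw [hK]; exact isInput_KL hpos _)
        (by rw [hcx]; exact cx_dim hpos)
      have hd : (decode (O (bits (KM M))) : Option (List (List ℕ × ℕ))) = some L :=
        decode_eq_some.2 hL1.symm
      rw [hd, Option.getD_some]
      rw [hcx] at hL2
      rw [aval_output hpos hL2, Nat.mul_div_cancel_left _ (by positivity), F_eq M h]
  · rw [if_neg h, F, if_neg h]

theorem aval_poly {α : Type} [TEnc α] {L : α → List (List ℕ × ℕ)} (hL : Poly L) :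
    Poly (fun a => aval (L a)) := by
  have h : ∀ c : ℕ, Poly (fun a => (((L a).filter
      (fun p => decide (p.1.getD 1 0 % 2 = c))).map Prod.snd).sum) := by
    intro c
    refine Poly.sum (Poly.map (F := fun (_ : α) (p : List ℕ × ℕ) => p.2)
      (Poly.filter (p := fun (_ : α) (p : List ℕ × ℕ) => decide (p.1.getD 1 0 % 2 = c)) hL ?_)
      (Poly.snd (Poly.snd Poly.id)))
    exact Poly.decide_eq (Poly.mod (Poly.getD (Poly.fst (Poly.snd Poly.id)) (Poly.const 1)
      (Poly.const 0)) (Poly.const 2)) (Poly.const c)
  unfold aval
  exact Poly.add (Poly.sub (h 0) (h 1)) (Poly.sub (h 1) (h 0))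

theorem fromAns_poly : Poly fromAns := by
  unfold fromAns
  have hM : Poly (fun p : List (List Bool) × List Bool => p.1) := Poly.fst Poly.id
  have hdec : Poly (fun p : List (List Bool) × List Bool =>
      (((decode p.2 : Option (List (List ℕ × ℕ)))).getD [])) := by
    refine (Poly.optCases (o := fun p : List (List Bool) × List Bool =>
      (decode p.2 : Option (List (List ℕ × ℕ)))) (g := fun _ => [])
      (h := fun _ L => L) (poly_decode.comp (Poly.snd Poly.id)) (Poly.const [])
      (Poly.snd Poly.id)).congr fun p => ?_
    cases (decode p.2 : Option (List (List ℕ × ℕ))) <;> rfl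
  have hlen : UPoly (fun p : List (List Bool) × List Bool => p.1.length) := UPoly.length hM
  refine Poly.ite ?_ (Poly.ite (Poly.decide_eq hlen.toPoly (Poly.const 0)) (Poly.const 1)
    (Poly.div (aval_poly hdec) (Pool.Agent.NPC.H549PM.upoly_pow2 hlen))) (Poly.const 0)
  refine Poly.decide_bool (Poly.all (l := fun p : List (List Bool) × List Bool => p.1)
    (p := fun p r => decide (r.length = p.1.length)) hM ?_)
  exact Poly.decide_eq (Poly.length (Poly.snd Poly.id)) (Poly.length (Poly.fst (Poly.fst Poly.id)))

/-- The computation of the Morse ensemble polynomial of `2`-dimensional complexes is `#P`-hard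
under polynomial-time Turing reductions. -/
theorem me_hard (O : List Bool → List Bool) (hO : ComputesME2 O) (f : List Bool → ℕ)
    (hf : SharpP f) : TuringReducesTo f O := by
  obtain ⟨V, p, hV, hf⟩ := hf
  obtain ⟨G, hG, hGf⟩ := parsimonious hV p
  have hraw : PC (bits : List Bool → List Bool) (fun x : List Bool => x) (fun x => x) := pc_raw
  have hG' : Poly G := PC.comp hG hraw
  obtain ⟨qs, post, hqs, hpost, hc⟩ := Pool.Agent.NPC.H549NRed.nred_sat
  have hF : ∀ x, f x = post (G x, (qs (G x)).map F) := by
    intro x
    rw [hf x, ← hGf x]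
    exact ((hc (G x) trivial).2).symm
  have hqG : Poly (fun x => qs (G x)) := hqs.comp hG'
  obtain ⟨r, hr⟩ := answer_sz
  refine turingReducesTo_of_list (fun x => (qs (G x)).map KM)
    (fun s => post (G s.1, ((qs (G s.1)).zip s.2).map fromAns)) ?_ ?_ ?_ r ?_
  · exact Poly.map (F := fun (_ : List Bool) M => KM M) hqG (KM_poly.comp (Poly.snd Poly.id))
  · refine hpost.comp (Poly.pair (hG'.comp (Poly.fst Poly.id)) ?_)
    exact Poly.map (F := fun (_ : List Bool × List (List Bool)) q => fromAns q)
      (Poly.zip (hqG.comp (Poly.fst Poly.id)) (Poly.snd Poly.id))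
      (fromAns_poly.comp (Poly.snd Poly.id))
  · intro x
    rw [hF x]
    simp only
    congr 2
    rw [List.map_map]
    generalize qs (G x) = l
    induction l with
    | nil => rfl
    | cons M l ih =>
      rw [List.map_cons, List.map_cons, List.zip_cons_cons, List.map_cons, ← ih]
      congr 1
      exact (fromAns_correct hO M).symm
  · intro x K hK
    rw [List.mem_map] at hK
    obtain ⟨M, -, rfl⟩ := hK
    have hpos : 0 < max M.length 1 := by omega
    have hin : IsInput (KM M) := isInput_KL hpos _
    have hd : dim (cplx (KM M)) = 2 := by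
      unfold KM
      rw [cplx_KL]
      exact cx_dim hpos
    obtain ⟨L, hL1, hL2⟩ := hO (KM M) hin hd
    rw [hL1, bits_length]
    exact hr _ _ hd hL2

end Pool.Agent.NPC.R536ME
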