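import Pool.Agent.R536.ME.Out

/-!
# The list of the simplices of the complex of a matrix
-/

set_option autoImplicit false

namespace Pool.Agent.NPC.R536ME

open Finset Classical Pool.Agent.R536.ME

/-- Simplices with one index. -/
def L1 (i : ℕ) : List (List ℕ) :=
  [[vnm i], [nm 0 i 0], [nm 4 i 0], [nm 0 i 0, nm 4 i 0], [nm 0 i 0, vnm i],
   [nm 1 i 0], [nm 5 i 0], [nm 1 i 0, nm 5 i 0],
   [nm 2 i 0], [nm 6 i 0], [nm 2 i 0, nm 6 i 0], [nm 1 i 0, nm 2 i 0]]

/-- Simplices with two indices. -/
def L2 (e : Bool) (i j : ℕ) : List (List ℕ) :=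
  [[nm 3 j i], [nm 7 j i], [nm 3 j i, nm 7 j i], [nm 1 j 0, nm 3 j i], [nm 2 j 0, nm 3 j i],
    [nm 1 j 0, nm 2 j 0, nm 3 j i]] ++
   (bif e then [[nm 1 j 0, vnm i], [nm 3 j i, vnm i], [nm 1 j 0, nm 3 j i, vnm i]] else [])

/-- The list of the simplices. -/
def KL (n : ℕ) (e : ℕ → ℕ → Bool) : List (List ℕ) :=
  (List.range n).flatMap (fun i => L1 i ++ (List.range n).flatMap (fun j => L2 (e i j) i j))

variable {n : ℕ}

/-- Cells with one index. -/
def C1 (A : Fin n → Fin n → Bool) (i : Fin n) : List (Cell A) :=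
  [.v i, .ov (.q i), .lf (.q i), .le (.q i), .vq i,
   .ov (.a i), .lf (.a i), .le (.a i), .ov (.c i), .lf (.c i), .le (.c i), .g i]

/-- Cells with two indices. -/
def C2 (A : Fin n → Fin n → Bool) (i j : Fin n) : List (Cell A) :=
  [.ov (.b j i), .lf (.b j i), .le (.b j i), .gb j i, .cb j i, .T j i] ++
   (if h : A i j = true then [.va i j h, .vb i j h, .t i j h] else [])

/-- The list of the cells. -/
def CL (A : Fin n → Fin n → Bool) : List (Cell A) :=
  (List.finRange n).flatMap (fun i => C1 A i ++ (List.finRange n).flatMap (fun j => C2 A i j))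

theorem map_C1 (A : Fin n → Fin n → Bool) (i : Fin n) : (C1 A i).map vl = L1 i := rfl

theorem map_C2 (A : Fin n → Fin n → Bool) (i j : Fin n) : (C2 A i j).map vl = L2 (A i j) i j := by
  unfold C2 L2
  rw [List.map_append]
  congr 1
  by_cases h : A i j = true
  · rw [dif_pos h, h]; rfl
  · rw [dif_neg h]
    rw [Bool.not_eq_true] at h
    rw [h]; rfl

theorem flatMap_range {α : Type} (f : ℕ → List α) :
    (List.range n).flatMap f = (List.finRange n).flatMap (fun i : Fin n => f i.val) := by
  rw [← List.map_coe_finRange_eq_range, List.flatMap_map]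

theorem map_CL (e : ℕ → ℕ → Bool) :
    (CL (fun i j : Fin n => e i j)).map vl = KL n e := by
  unfold CL KL
  rw [flatMap_range, List.map_flatMap]
  congr 1
  funext i
  rw [List.map_append, map_C1, flatMap_range, List.map_flatMap]
  congr 2
  funext j
  exact map_C2 _ i j

theorem mem_CL {A : Fin n → Fin n → Bool} (x : Cell A) : x ∈ CL A := by
  unfold CL
  rw [List.mem_flatMap]
  cases x with
  | ov x => cases x with
    | q i => exact ⟨i, List.mem_finRange _, List.mem_append_left _ (by simp [C1])⟩
    | a i => exact ⟨i, List.mem_finRange _, List.mem_append_left _ (by simp [C1])⟩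
    | c i => exact ⟨i, List.mem_finRange _, List.mem_append_left _ (by simp [C1])⟩
    | b j i => exact ⟨i, List.mem_finRange _, List.mem_append_right _
        (List.mem_flatMap.2 ⟨j, List.mem_finRange _, by simp [C2]⟩)⟩
  | lf x => cases x with
    | q i => exact ⟨i, List.mem_finRange _, List.mem_append_left _ (by simp [C1])⟩
    | a i => exact ⟨i, List.mem_finRange _, List.mem_append_left _ (by simp [C1])⟩
    | c i => exact ⟨i, List.mem_finRange _, List.mem_append_left _ (by simp [C1])⟩
    | b j i => exact ⟨i, List.mem_finRange _, List.mem_append_right _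
        (List.mem_flatMap.2 ⟨j, List.mem_finRange _, by simp [C2]⟩)⟩
  | le x => cases x with
    | q i => exact ⟨i, List.mem_finRange _, List.mem_append_left _ (by simp [C1])⟩
    | a i => exact ⟨i, List.mem_finRange _, List.mem_append_left _ (by simp [C1])⟩
    | c i => exact ⟨i, List.mem_finRange _, List.mem_append_left _ (by simp [C1])⟩
    | b j i => exact ⟨i, List.mem_finRange _, List.mem_append_right _
        (List.mem_flatMap.2 ⟨j, List.mem_finRange _, by simp [C2]⟩)⟩
  | v i => exact ⟨i, List.mem_finRange _, List.mem_append_left _ (by simp [C1])⟩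
  | vq i => exact ⟨i, List.mem_finRange _, List.mem_append_left _ (by simp [C1])⟩
  | g i => exact ⟨i, List.mem_finRange _, List.mem_append_left _ (by simp [C1])⟩
  | gb j i => exact ⟨i, List.mem_finRange _, List.mem_append_right _
        (List.mem_flatMap.2 ⟨j, List.mem_finRange _, by simp [C2]⟩)⟩
  | cb j i => exact ⟨i, List.mem_finRange _, List.mem_append_right _
        (List.mem_flatMap.2 ⟨j, List.mem_finRange _, by simp [C2]⟩)⟩
  | T j i => exact ⟨i, List.mem_finRange _, List.mem_append_right _
        (List.mem_flatMap.2 ⟨j, List.mem_finRange _, by simp [C2]⟩)⟩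
  | va i j h => exact ⟨i, List.mem_finRange _, List.mem_append_right _
        (List.mem_flatMap.2 ⟨j, List.mem_finRange _, by simp [C2, h]⟩)⟩
  | vb i j h => exact ⟨i, List.mem_finRange _, List.mem_append_right _
        (List.mem_flatMap.2 ⟨j, List.mem_finRange _, by simp [C2, h]⟩)⟩
  | t i j h => exact ⟨i, List.mem_finRange _, List.mem_append_right _
        (List.mem_flatMap.2 ⟨j, List.mem_finRange _, by simp [C2, h]⟩)⟩

/-- Indices of a cell with two indices. -/
def idx {A : Fin n → Fin n → Bool} : Cell A → Option (Fin n × Fin n)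
  | .ov (.b j i) => some (i, j)
  | .lf (.b j i) => some (i, j)
  | .le (.b j i) => some (i, j)
  | .gb j i => some (i, j)
  | .cb j i => some (i, j)
  | .T j i => some (i, j)
  | .va i j _ => some (i, j)
  | .vb i j _ => some (i, j)
  | .t i j _ => some (i, j)
  | _ => none

/-- Index of a cell with one index. -/
def idx1 {A : Fin n → Fin n → Bool} : Cell A → Option (Fin n)
  | .ov (.q i) => some i
  | .lf (.q i) => some i
  | .le (.q i) => some i
  | .ov (.a i) => some i
  | .lf (.a i) => some i
  | .le (.a i) => some i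
  | .ov (.c i) => some i
  | .lf (.c i) => some i
  | .le (.c i) => some i
  | .v i => some i
  | .vq i => some i
  | .g i => some i
  | _ => none

theorem idx_C2 {A : Fin n → Fin n → Bool} {i j : Fin n} {x : Cell A} (h : x ∈ C2 A i j) :
    idx x = some (i, j) := by
  unfold C2 at h
  rw [List.mem_append] at h
  rcases h with h | h
  · simp only [List.mem_cons, List.not_mem_nil, or_false] at h
    rcases h with rfl | rfl | rfl | rfl | rfl | rfl <;> rfl
  · split_ifs at h
    · simp only [List.mem_cons, List.not_mem_nil, or_false] at h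
      rcases h with rfl | rfl | rfl <;> rfl
    · exact absurd h List.not_mem_nil

theorem idx_C1 {A : Fin n → Fin n → Bool} {i : Fin n} {x : Cell A} (h : x ∈ C1 A i) :
    idx x = none ∧ idx1 x = some i := by
  simp only [C1, List.mem_cons, List.not_mem_nil, or_false] at h
  rcases h with rfl | rfl | rfl | rfl | rfl | rfl | rfl | rfl | rfl | rfl | rfl | rfl <;>
    exact ⟨rfl, rfl⟩

theorem C1_nodup (A : Fin n → Fin n → Bool) (i : Fin n) : (C1 A i).Nodup := by
  simp [C1]

theorem C2_nodup (A : Fin n → Fin n → Bool) (i j : Fin n) : (C2 A i j).Nodup := by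
  unfold C2
  split_ifs <;> simp

theorem CL_nodup (A : Fin n → Fin n → Bool) : (CL A).Nodup := by
  unfold CL
  rw [List.nodup_flatMap]
  constructor
  · intro i _
    rw [List.nodup_append]
    refine ⟨C1_nodup A i, ?_, ?_⟩
    · rw [List.nodup_flatMap]
      refine ⟨fun j _ => C2_nodup A i j, ?_⟩
      refine (List.nodup_finRange n).imp ?_
      intro j j' hne x hx hx'
      have h1 := idx_C2 hx
      have h2 := idx_C2 hx'
      rw [h1] at h2
      simp only [Option.some.injEq, Prod.mk.injEq, true_and] at h2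
      exact hne h2
    · intro x hx y hy he
      subst he
      rw [List.mem_flatMap] at hy
      obtain ⟨j, -, hy⟩ := hy
      have h1 := (idx_C1 hx).1
      have h2 := idx_C2 hy
      rw [h1] at h2
      cases h2
  · refine (List.nodup_finRange n).imp ?_
    intro i i' hne x hx hx'
    rw [List.mem_append, List.mem_flatMap] at hx hx'
    rcases hx with hx | ⟨j, -, hx⟩ <;> rcases hx' with hx' | ⟨j', -, hx'⟩
    · have h1 := (idx_C1 hx).2
      have h2 := (idx_C1 hx').2
      rw [h1] at h2
      exact hne (Option.some.inj h2)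
    · have h1 := (idx_C1 hx).1
      have h2 := idx_C2 hx'
      rw [h1] at h2
      cases h2
    · have h1 := (idx_C1 hx').1
      have h2 := idx_C2 hx
      rw [h1] at h2
      cases h2
    · have h1 := idx_C2 hx
      have h2 := idx_C2 hx'
      rw [h1] at h2
      simp only [Option.some.injEq, Prod.mk.injEq] at h2
      exact hne h2.1

theorem cplx_KL (e : ℕ → ℕ → Bool) : cplx (KL n e) = cx (fun i j : Fin n => e i j) := by
  ext s
  rw [cplx, ← map_CL, List.map_map, List.mem_toFinset, List.mem_map, mem_cx]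
  constructor
  · rintro ⟨x, -, rfl⟩
    exact ⟨x, rfl⟩
  · rintro ⟨x, rfl⟩
    exact ⟨x, mem_CL x, rfl⟩

theorem isInput_KL (h0 : 0 < n) (e : ℕ → ℕ → Bool) : IsInput (KL n e) where
  simplex_nodup := by
    intro s hs
    rw [← map_CL, List.mem_map] at hs
    obtain ⟨x, -, rfl⟩ := hs
    exact vl_nodup x
  nodup := by
    rw [← map_CL, List.map_map]
    exact (CL_nodup _).map vs_inj
  complex := by
    rw [cplx_KL]
    exact cx_complex h0

/-! ### Polynomial time -/

section

variable {α : Type} [TEnc α]

theorem pNm {k i j : α → ℕ} (hk : Poly k) (hi : Poly i) (hj : Poly j) :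
    Poly (fun a => nm (k a) (i a) (j a)) := Cnt.pNatPair hk (Cnt.pNatPair hi hj)

theorem pl1 {β : Type} [TEnc β] {f : α → β} (hf : Poly f) : Poly (fun a => [f a]) :=
  Poly.cons hf (Poly.const [])

theorem L1_poly {i : α → ℕ} (hi : Poly i) : Poly (fun a => L1 (i a)) := by
  have h0 := fun k : ℕ => pNm (Poly.const k) hi (Poly.const (α := α) 0)
  have hv : Poly (fun a => vnm (i a)) := h0 8
  unfold L1
  exact Poly.cons (pl1 hv) (Poly.cons (pl1 (h0 0)) (Poly.cons (pl1 (h0 4))
    (Poly.cons (Poly.cons (h0 0) (pl1 (h0 4))) (Poly.cons (Poly.cons (h0 0) (pl1 hv))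
    (Poly.cons (pl1 (h0 1)) (Poly.cons (pl1 (h0 5)) (Poly.cons (Poly.cons (h0 1) (pl1 (h0 5)))
    (Poly.cons (pl1 (h0 2)) (Poly.cons (pl1 (h0 6)) (Poly.cons (Poly.cons (h0 2) (pl1 (h0 6)))
    (pl1 (Poly.cons (h0 1) (pl1 (h0 2))))))))))))))

theorem L2_poly {e : α → Bool} {i j : α → ℕ} (he : Poly e) (hi : Poly i) (hj : Poly j) :
    Poly (fun a => L2 (e a) (i a) (j a)) := by
  have h0 := fun k : ℕ => pNm (Poly.const k) hj (Poly.const (α := α) 0)
  have hb := fun k : ℕ => pNm (Poly.const k) hj hi
  have hv : Poly (fun a => vnm (i a)) := pNm (Poly.const 8) hi (Poly.const (α := α) 0)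
  unfold L2
  exact Poly.append (Poly.cons (pl1 (hb 3)) (Poly.cons (pl1 (hb 7))
    (Poly.cons (Poly.cons (hb 3) (pl1 (hb 7))) (Poly.cons (Poly.cons (h0 1) (pl1 (hb 3)))
    (Poly.cons (Poly.cons (h0 2) (pl1 (hb 3)))
    (pl1 (Poly.cons (h0 1) (Poly.cons (h0 2) (pl1 (hb 3))))))))))
    (Poly.cond he (Poly.cons (Poly.cons (h0 1) (pl1 hv)) (Poly.cons (Poly.cons (hb 3) (pl1 hv))
    (pl1 (Poly.cons (h0 1) (Poly.cons (hb 3) (pl1 hv)))))) (Poly.const []))

end

/-- Entries of a matrix. -/
def entM (M : List (List Bool)) (i j : ℕ) : Bool := (M.getD i []).getD j false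

/-- The list of the simplices of a matrix. -/
def KM (M : List (List Bool)) : List (List ℕ) := KL (max M.length 1) (entM M)

theorem umax1 {α : Type} [TEnc α] {n : α → ℕ} (hn : UPoly n) : UPoly (fun a => max (n a) 1) :=
  UPoly.of_le (Poly.max hn.toPoly (Poly.const 1)) (UPoly.add hn (UPoly.const 1))
    (fun a => by omega)

theorem KM_poly : Poly KM := by
  unfold KM KL
  have hlen : UPoly (fun M : List (List Bool) => max M.length 1) := umax1 (UPoly.length Poly.id)
  refine Poly.flatMap (l := fun M : List (List Bool) => List.range (max M.length 1))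
    (F := fun (M : List (List Bool)) i => L1 i ++ (List.range (max M.length 1)).flatMap
      (fun j => L2 (entM M i j) i j)) hlen.range ?_
  refine Poly.append (L1_poly (Poly.snd Poly.id)) ?_
  refine Poly.flatMap (l := fun p : List (List Bool) × ℕ => List.range (max p.1.length 1))
    (F := fun (p : List (List Bool) × ℕ) j => L2 (entM p.1 p.2 j) p.2 j)
    ((hlen.comp (Poly.fst Poly.id)).range) ?_
  have he : Poly (fun q : (List (List Bool) × ℕ) × ℕ => entM q.1.1 q.1.2 q.2) := by
    unfold entM
    exact Poly.getD (Poly.getD (Poly.fst (Poly.fst Poly.id)) (Poly.snd (Poly.fst Poly.id))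
      (Poly.const [])) (Poly.snd Poly.id) (Poly.const false)
  exact L2_poly he (Poly.snd (Poly.fst Poly.id)) (Poly.snd Poly.id)

end Pool.Agent.NPC.R536ME
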