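import Pool.Agent.R536.ME.Trans

/-!
# Outputs: evaluation and size; the list of simplices
-/

set_option autoImplicit false

namespace Pool.Agent.NPC.R536ME

open Finset Classical Pool.Agent.R536.ME

/-! ### Evaluation of an output -/

theorem evm_output {X : Finset (Finset ℕ)} {L : List (List ℕ × ℕ)} (hL : IsOutput X L)
    (hd : dim X = 2) :
    evm (ME X) = (L.map fun p => (p.2 : ℤ) * (-1) ^ (p.1.getD 1 0)).sum := by
  rw [hL.sum, map_list_sum, List.map_map]
  congr 1
  refine List.map_congr_left fun p hp => ?_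
  have h1 := hL.exps p hp
  rw [hd] at h1
  rw [Function.comp, map_mul, mono, h1, evm_prod 1]
  congr 1
  rw [evm, MvPolynomial.coe_eval₂Hom, MvPolynomial.eval₂_C]
  rfl

/-- The absolute value of the signed sum of the coefficients. -/
def aval (L : List (List ℕ × ℕ)) : ℕ :=
  (((L.filter (fun p => decide (p.1.getD 1 0 % 2 = 0))).map Prod.snd).sum -
    ((L.filter (fun p => decide (p.1.getD 1 0 % 2 = 1))).map Prod.snd).sum) +
  (((L.filter (fun p => decide (p.1.getD 1 0 % 2 = 1))).map Prod.snd).sum -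
    ((L.filter (fun p => decide (p.1.getD 1 0 % 2 = 0))).map Prod.snd).sum)

theorem signed_sum (L : List (List ℕ × ℕ)) :
    (L.map fun p => (p.2 : ℤ) * (-1) ^ (p.1.getD 1 0)).sum =
      (((L.filter (fun p => decide (p.1.getD 1 0 % 2 = 0))).map Prod.snd).sum : ℕ) -
      (((L.filter (fun p => decide (p.1.getD 1 0 % 2 = 1))).map Prod.snd).sum : ℕ) := by
  induction L with
  | nil => simp
  | cons p L ih =>
    rw [List.map_cons, List.sum_cons, ih]
    rcases Nat.mod_two_eq_zero_or_one (p.1.getD 1 0) with h | h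
    · have h1 : (-1 : ℤ) ^ (p.1.getD 1 0) = 1 := Even.neg_one_pow (Nat.even_iff.2 h)
      rw [h1, List.filter_cons_of_pos (by simpa using h),
        List.filter_cons_of_neg (by simp only [h]; decide), List.map_cons, List.sum_cons]
      push_cast
      ring
    · have h1 : (-1 : ℤ) ^ (p.1.getD 1 0) = -1 := Odd.neg_one_pow (Nat.odd_iff.2 h)
      rw [h1, List.filter_cons_of_neg (by simp only [h]; decide),
        List.filter_cons_of_pos (by simpa using h), List.map_cons, List.sum_cons]
      push_cast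
      ring

theorem aval_eq (L : List (List ℕ × ℕ)) :
    aval L = (L.map fun p : List ℕ × ℕ => (p.2 : ℤ) * (-1) ^ (p.1.getD 1 0)).sum.natAbs := by
  rw [signed_sum, aval]
  generalize ((L.filter (fun p => decide (p.1.getD 1 0 % 2 = 0))).map Prod.snd).sum = a
  generalize ((L.filter (fun p => decide (p.1.getD 1 0 % 2 = 1))).map Prod.snd).sum = b
  omega

theorem aval_output {n : ℕ} {A : Fin n → Fin n → Bool} (h0 : 0 < n) {L : List (List ℕ × ℕ)}
    (hL : IsOutput (cx A) L) :
    aval L = 2 ^ n * (univ.filter (fun σ : Equiv.Perm (Fin n) => ∀ i, A i (σ i) = true)).card := by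
  obtain ⟨N, hN⟩ := evm_ME (A := A) h0
  rw [aval_eq, ← evm_output hL (cx_dim h0), hN, Int.natAbs_mul, Int.natAbs_pow]
  norm_cast
  simp

/-! ### The size of an output -/

/-- Evaluation at `(2, ..., 2)`. -/
noncomputable def ev2 : MvPolynomial ℕ ℕ →+* ℕ :=
  MvPolynomial.eval₂Hom (RingHom.id ℕ) (fun _ => 2)

theorem ev2_ME (X : Finset (Finset ℕ)) : ev2 (ME X) ≤
    2 ^ (X.card * X.card) * 2 ^ ((dim X + 1) * X.card) := by
  rw [ME, map_sum]
  have h1 : ∀ M ∈ acyclicMatchings X, ev2 (∏ i ∈ range (dim X + 1),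
      (MvPolynomial.X i) ^ crit X M i) ≤ 2 ^ ((dim X + 1) * X.card) := by
    intro M _
    rw [map_prod, pow_mul', ← Finset.card_range (dim X + 1)]
    rw [Finset.card_range]
    refine (Finset.prod_le_pow_card _ _ (2 ^ X.card) fun i _ => ?_).trans ?_
    · rw [map_pow, ev2, MvPolynomial.eval₂Hom_X']
      exact Nat.pow_le_pow_right (by norm_num) (card_filter_le _ _)
    · rw [Finset.card_range]
  refine (sum_le_card_nsmul _ _ _ h1).trans ?_
  rw [smul_eq_mul]
  refine Nat.mul_le_mul_right _ ?_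
  unfold acyclicMatchings
  refine (card_filter_le _ _).trans ?_
  rw [card_powerset, card_product]

theorem ev2_output {X : Finset (Finset ℕ)} {L : List (List ℕ × ℕ)} (hL : IsOutput X L) :
    ev2 (ME X) = (L.map fun p => p.2 * ∏ i ∈ range p.1.length, 2 ^ p.1.getD i 0).sum := by
  rw [hL.sum, map_list_sum, List.map_map]
  congr 1
  refine List.map_congr_left fun p hp => ?_
  rw [Function.comp, map_mul, mono, map_prod]
  congr 1
  · rw [ev2, MvPolynomial.coe_eval₂Hom, MvPolynomial.eval₂_C]; rfl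
  · refine prod_congr rfl fun i _ => ?_
    rw [map_pow, ev2, MvPolynomial.eval₂Hom_X']

theorem term_le {X : Finset (Finset ℕ)} {L : List (List ℕ × ℕ)} (hL : IsOutput X L)
    {p : List ℕ × ℕ} (hp : p ∈ L) :
    p.2 * ∏ i ∈ range p.1.length, 2 ^ p.1.getD i 0 ≤
      2 ^ (X.card * X.card + (dim X + 1) * X.card) := by
  rw [pow_add]
  refine le_trans ?_ (ev2_ME X)
  rw [ev2_output hL]
  exact List.single_le_sum (by simp) _ (List.mem_map.2 ⟨p, hp, rfl⟩)

theorem coeff_le {X : Finset (Finset ℕ)} {L : List (List ℕ × ℕ)} (hL : IsOutput X L)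
    {p : List ℕ × ℕ} (hp : p ∈ L) :
    p.2 ≤ 2 ^ (X.card * X.card + (dim X + 1) * X.card) := by
  refine le_trans ?_ (term_le hL hp)
  exact Nat.le_mul_of_pos_right _ (prod_pos fun i _ => by positivity)

theorem exp_le {X : Finset (Finset ℕ)} {L : List (List ℕ × ℕ)} (hL : IsOutput X L)
    {p : List ℕ × ℕ} (hp : p ∈ L) {a : ℕ} (ha : a ∈ p.1) :
    a ≤ X.card * X.card + (dim X + 1) * X.card := by
  obtain ⟨i, hi, rfl⟩ := List.getElem_of_mem ha
  have h1 := term_le hL hp
  have h2 : 2 ^ p.1.getD i 0 ≤ ∏ i ∈ range p.1.length, 2 ^ p.1.getD i 0 :=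
    Finset.single_le_prod' (f := fun i => 2 ^ p.1.getD i 0) (fun j _ => Nat.one_le_two_pow)
      (mem_range.2 hi)
  have h3 : 1 ≤ p.2 := Nat.one_le_iff_ne_zero.2 (hL.coeffs p hp)
  rw [List.getD_eq_getElem _ _ hi] at h2
  have h4 : 2 ^ p.1[i] ≤ 2 ^ (X.card * X.card + (dim X + 1) * X.card) := by
    refine h2.trans (le_trans ?_ h1)
    exact Nat.le_mul_of_pos_left _ h3
  exact (Nat.pow_le_pow_iff_right (by norm_num)).1 h4

theorem length_le {X : Finset (Finset ℕ)} {L : List (List ℕ × ℕ)} (hL : IsOutput X L)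
    (hd : dim X = 2) : L.length ≤ (X.card * X.card + 3 * X.card + 1) ^ 3 := by
  set B := X.card * X.card + 3 * X.card with hB
  have h1 : (L.map Prod.fst).toFinset ⊆ ((range (B + 1)) ×ˢ ((range (B + 1)) ×ˢ
      (range (B + 1)))).image (fun t : ℕ × ℕ × ℕ => [t.1, t.2.1, t.2.2]) := by
    intro e he
    rw [List.mem_toFinset, List.mem_map] at he
    obtain ⟨p, hp, rfl⟩ := he
    have h2 := hL.exps p hp
    have h3 : ∀ a ∈ p.1, a ≤ B := fun a ha => by
      have := exp_le hL hp ha
      rw [hd] at this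
      exact this
    rw [hd] at h2
    obtain ⟨a, b, c, h4⟩ := List.length_eq_three.1 h2
    rw [h4] at h3 ⊢
    simp only [List.mem_cons, List.not_mem_nil, or_false, forall_eq_or_imp, forall_eq] at h3
    rw [mem_image]
    refine ⟨(a, b, c), ?_, rfl⟩
    simp only [mem_product, mem_range]
    omega
  have h2 := card_le_card h1
  rw [List.toFinset_card_of_nodup hL.nodup, List.length_map] at h2
  refine h2.trans (card_image_le.trans ?_)
  rw [card_product, card_product, card_range]
  exact le_of_eq (by ring)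

/-- The size of the answers is bounded by a polynomial. -/
theorem answer_sz : ∃ r : Polynomial ℕ, ∀ (K : List (List ℕ)) (L : List (List ℕ × ℕ)),
    dim (cplx K) = 2 → IsOutput (cplx K) L → sz L ≤ r.eval (sz K) := by
  let B : Polynomial ℕ := Polynomial.X * Polynomial.X + 3 * Polynomial.X
  refine ⟨(B + 1) ^ 3 * (20 * (B + 2)) + 1, fun K L hd hL => ?_⟩
  set c := (cplx K).card with hc
  have hcK : c ≤ sz K := by
    refine le_trans ?_ (length_lt_sz K).le
    rw [hc, cplx]
    exact (List.toFinset_card_le _).trans (by simp)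
  have hlen := length_le hL hd
  rw [← hc] at hlen
  have hB : B.eval (sz K) = sz K * sz K + 3 * sz K := by simp [B]
  have hB1 : c * c + 3 * c ≤ B.eval (sz K) := by
    rw [hB]
    have := Nat.mul_le_mul hcK hcK
    omega
  have key : ∀ p ∈ L, sz p + 1 ≤ 20 * (B.eval (sz K) + 2) := by
    intro p hp
    have h1 := hL.exps p hp
    have h2 := coeff_le hL hp
    have h3 : ∀ a ∈ p.1, a ≤ c * c + 3 * c := fun a ha => by
      have := exp_le hL hp ha
      rw [hd, ← hc] at this
      exact this
    rw [hd, ← hc] at h2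
    rw [hd] at h1
    obtain ⟨a, b, d, h4⟩ := List.length_eq_three.1 h1
    rw [h4] at h3
    simp only [List.mem_cons, List.not_mem_nil, or_false, forall_eq_or_imp, forall_eq] at h3
    have hs : ∀ x : ℕ, x ≤ c * c + 3 * c → sz x ≤ 4 * (c * c + 3 * c) + 1 := by
      intro x hx
      have := sz_nat_le x
      have := Nat.size_le_size hx
      have := Poly.size_le_self (c * c + 3 * c)
      omega
    have h5 : p.2.size ≤ c * c + 3 * c + 1 := by
      rw [Nat.size_le]
      exact lt_of_le_of_lt h2 (Nat.pow_lt_pow_right (by norm_num) (Nat.lt_succ_self _))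
    have h6 := sz_nat_le p.2
    have h7 := hs a h3.1
    have h8 := hs b h3.2.1
    have h9 := hs d h3.2.2
    have h10 : sz p = sz p.1 + sz p.2 + 1 := by
      obtain ⟨p1, p2⟩ := p
      exact sz_pair _ _
    rw [h10, h4]
    simp only [sz_list_cons, sz_list_nil]
    omega
  have h1 := sz_le_length_mul L (20 * (B.eval (sz K) + 2) - 1) (fun p hp => by
    have := key p hp; omega)
  rw [Nat.sub_add_cancel (by omega)] at h1
  have h2 : ((B + 1) ^ 3 * (20 * (B + 2)) + 1).eval (sz K) =
      (B.eval (sz K) + 1) ^ 3 * (20 * (B.eval (sz K) + 2)) + 1 := by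
    simp
  rw [h2]
  have h3 : L.length ≤ (B.eval (sz K) + 1) ^ 3 :=
    hlen.trans (Nat.pow_le_pow_left (by omega) 3)
  have := Nat.mul_le_mul_right (20 * (B.eval (sz K) + 2)) h3
  omega

end Pool.Agent.NPC.R536ME
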