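import Pool.Agent.R536.ME.Cell

/-!
Elimination of the unmatched triangles and rows.
-/

set_option autoImplicit false

namespace Pool.Agent.R536.ME

open Finset Classical

variable {n : ℕ} {A : Fin n → Fin n → Bool}

/-- The triangle `T j i` is matched with `g j` or with `gb j i`. -/
def P2 (M : Finset (Cell A × Cell A)) (j i : Fin n) : Prop :=
  (Cell.g j, Cell.T j i) ∈ M ∨ (Cell.gb j i, Cell.T j i) ∈ M

/-- The row vertex `v i` is matched with an edge of an entry. -/
def P3 (M : Finset (Cell A × Cell A)) (i : Fin n) : Prop :=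
  ∃ j h, (Cell.v i, Cell.va i j h) ∈ M ∨ (Cell.v i, Cell.vb i j h) ∈ M

/-- The triangle of the entry is matched properly. -/
def P4 (M : Finset (Cell A × Cell A)) (i j : Fin n) : Prop :=
  ∀ h, (Cell.gb j i, Cell.t i j h) ∈ M ∨
    ((Cell.va i j h, Cell.t i j h) ∈ M ∧ (Cell.v i, Cell.vb i j h) ∉ M)

/-- The class of matchings of a stage. -/
def Cls (s2 : Finset (Fin n × Fin n)) (s3 : Finset (Fin n)) (s4 : Finset (Fin n × Fin n))
    (M : Finset (Cell A × Cell A)) : Prop :=
  (Mat Fc M ∧ P1 M) ∧ (∀ x ∈ s2, P2 M x.1 x.2) ∧ (∀ i ∈ s3, P3 M i) ∧ (∀ x ∈ s4, P4 M x.1 x.2)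

/-- Toggling a pair which occurs in no condition. -/
theorem cls_toggle {s2 : Finset (Fin n × Fin n)} {s3 : Finset (Fin n)}
    {s4 : Finset (Fin n × Fin n)} {M N : Finset (Cell A × Cell A)} {p : Cell A × Cell A}
    (hM : Cls s2 s3 s4 M) (hN : Mat Fc N) (hMN : ∀ q, q ≠ p → (q ∈ M ↔ q ∈ N))
    (hp1 : ∀ x, p ≠ (Cell.ov x, Cell.le x))
    (hp2 : ∀ x ∈ s2, p ≠ (Cell.g x.1, Cell.T x.1 x.2) ∧ p ≠ (Cell.gb x.1 x.2, Cell.T x.1 x.2))
    (hp3 : ∀ i j h, p ≠ (Cell.v i, Cell.va i j h) ∧ p ≠ (Cell.v i, Cell.vb i j h))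
    (hp4 : ∀ x ∈ s4, ∀ h, p ≠ (Cell.gb x.2 x.1, Cell.t x.1 x.2 h) ∧
      p ≠ (Cell.va x.1 x.2 h, Cell.t x.1 x.2 h)) : Cls s2 s3 s4 N := by
  obtain ⟨⟨h0, h1⟩, h2, h3, h4⟩ := hM
  refine ⟨⟨hN, fun x => (hMN _ (hp1 x).symm).1 (h1 x)⟩, ?_, ?_, ?_⟩
  · intro x hx
    rcases h2 x hx with h | h
    · exact Or.inl ((hMN _ (hp2 x hx).1.symm).1 h)
    · exact Or.inr ((hMN _ (hp2 x hx).2.symm).1 h)
  · intro i hi
    obtain ⟨j, h, hh⟩ := h3 i hi
    refine ⟨j, h, ?_⟩
    rcases hh with hh | hh
    · exact Or.inl ((hMN _ (hp3 i j h).1.symm).1 hh)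
    · exact Or.inr ((hMN _ (hp3 i j h).2.symm).1 hh)
  · intro x hx h
    rcases h4 x hx h with hh | ⟨hh, hh'⟩
    · exact Or.inl ((hMN _ (hp4 x hx h).1.symm).1 hh)
    · exact Or.inr ⟨(hMN _ (hp4 x hx h).2.symm).1 hh,
        fun h5 => hh' ((hMN _ (hp3 x.1 x.2 h).2.symm).2 h5)⟩

theorem mem_insert_iff' {α : Type} [DecidableEq α] {p : α} (M : Finset α) (q : α) (hq : q ≠ p) :
    q ∈ M ↔ q ∈ insert p M := by
  rw [mem_insert]
  exact ⟨Or.inr, fun h => h.resolve_left hq⟩

theorem mem_erase_iff' {α : Type} [DecidableEq α] {p : α} (M : Finset α) (q : α) (hq : q ≠ p) :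
    q ∈ M ↔ q ∈ M.erase p := by
  rw [mem_erase]
  exact ⟨fun h => ⟨hq, h⟩, And.right⟩

theorem stage2_aux (s : Finset (Fin n × Fin n)) :
    ∑ M ∈ univ.filter (fun M : Finset (Cell A × Cell A) => Mat Fc M ∧ P1 M), (-1 : ℤ) ^ M.card =
      ∑ M ∈ univ.filter (fun M : Finset (Cell A × Cell A) => Cls s ∅ ∅ M),
        (-1 : ℤ) ^ M.card := by
  induction s using Finset.induction_on with
  | empty => simp [Cls]
  | insert x s hx ih =>
    rw [ih, sum_restrict _ (fun M => P2 M x.1 x.2)]
    · congr 1
      ext M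
      rw [mem_filter, mem_filter]
      simp only [mem_univ, true_and, mem_insert, forall_eq_or_imp, Cls]
      tauto
    · refine sum_toggle _ (Cell.cb x.1 x.2, Cell.T x.1 x.2) ?_ ?_
      · intro M hM hp
        simp only [mem_filter, mem_univ, true_and] at hM ⊢
        obtain ⟨h1, h2⟩ := hM
        have hmat := h1.1.1
        have hP1 := h1.1.2
        have hfree : ∀ q ∈ M, q.1 ≠ Cell.cb x.1 x.2 ∧ q.1 ≠ Cell.T x.1 x.2 ∧
            q.2 ≠ Cell.cb x.1 x.2 ∧ q.2 ≠ Cell.T x.1 x.2 := by
          rintro ⟨y, z⟩ hq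
          have hc := hmat.cov _ hq
          simp only at hc
          refine ⟨?_, ?_, ?_, ?_⟩
          · rintro rfl
            cases hc
            exact hp hq
          · rintro rfl
            cases hc
          · rintro rfl
            cases hc
            · exact absurd (hmat.eq_of_fst hq (hP1 _)) (by simp)
            · exact absurd (hmat.eq_of_fst hq (hP1 _)) (by simp)
          · rintro rfl
            cases hc
            · exact h2 (Or.inl hq)
            · exact h2 (Or.inr hq)
            · exact hp hq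
        refine ⟨cls_toggle (p := (Cell.cb x.1 x.2, Cell.T x.1 x.2)) h1 (hmat.insert (Fc.T_cb _ _) hfree) (mem_insert_iff' M)
          (by simp) (by simp) (by simp) (by simp), ?_⟩
        rintro (h3 | h3)
        · exact h2 (Or.inl ((mem_insert_iff' M _ (by simp)).2 h3))
        · exact h2 (Or.inr ((mem_insert_iff' M _ (by simp)).2 h3))
      · intro M hM hp
        simp only [mem_filter, mem_univ, true_and] at hM ⊢
        obtain ⟨h1, h2⟩ := hM
        refine ⟨cls_toggle (p := (Cell.cb x.1 x.2, Cell.T x.1 x.2)) h1 (h1.1.1.erase _) (mem_erase_iff' M)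
          (by simp) (by simp) (by simp) (by simp), ?_⟩
        rintro (h3 | h3)
        · exact h2 (Or.inl (mem_of_mem_erase h3))
        · exact h2 (Or.inr (mem_of_mem_erase h3))

theorem stage3_aux (s2 : Finset (Fin n × Fin n)) (s : Finset (Fin n)) :
    ∑ M ∈ univ.filter (fun M : Finset (Cell A × Cell A) => Cls s2 ∅ ∅ M), (-1 : ℤ) ^ M.card =
      ∑ M ∈ univ.filter (fun M : Finset (Cell A × Cell A) => Cls s2 s ∅ M),
        (-1 : ℤ) ^ M.card := by
  induction s using Finset.induction_on with
  | empty => rfl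
  | insert i s hx ih =>
    rw [ih, sum_restrict _ (fun M => P3 M i)]
    · congr 1
      ext M
      rw [mem_filter, mem_filter]
      simp only [mem_univ, true_and, mem_insert, forall_eq_or_imp, Cls]
      tauto
    · refine sum_toggle _ (Cell.v i, Cell.vq i) ?_ ?_
      · intro M hM hp
        simp only [mem_filter, mem_univ, true_and] at hM ⊢
        obtain ⟨h1, h2⟩ := hM
        have hmat := h1.1.1
        have hP1 := h1.1.2
        have hfree : ∀ q ∈ M, q.1 ≠ Cell.v i ∧ q.1 ≠ Cell.vq i ∧
            q.2 ≠ Cell.v i ∧ q.2 ≠ Cell.vq i := by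
          rintro ⟨y, z⟩ hq
          have hc := hmat.cov _ hq
          simp only at hc
          refine ⟨?_, ?_, ?_, ?_⟩
          · rintro rfl
            cases hc
            · exact hp hq
            · exact h2 ⟨_, _, Or.inl hq⟩
            · exact h2 ⟨_, _, Or.inr hq⟩
          · rintro rfl
            cases hc
          · rintro rfl
            cases hc
          · rintro rfl
            cases hc
            · exact hp hq
            · exact absurd (hmat.eq_of_fst hq (hP1 _)) (by simp)
        refine ⟨cls_toggle (p := (Cell.v i, Cell.vq i)) h1 (hmat.insert (Fc.vq_v _) hfree) (mem_insert_iff' M)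
          (by simp) (by simp) (by simp) (by simp), ?_⟩
        rintro ⟨j, h, h3 | h3⟩
        · exact h2 ⟨j, h, Or.inl ((mem_insert_iff' M _ (by simp)).2 h3)⟩
        · exact h2 ⟨j, h, Or.inr ((mem_insert_iff' M _ (by simp)).2 h3)⟩
      · intro M hM hp
        simp only [mem_filter, mem_univ, true_and] at hM ⊢
        obtain ⟨h1, h2⟩ := hM
        refine ⟨cls_toggle (p := (Cell.v i, Cell.vq i)) h1 (h1.1.1.erase _) (mem_erase_iff' M)
          (by simp) (by simp) (by simp) (by simp), ?_⟩
        rintro ⟨j, h, h3 | h3⟩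
        · exact h2 ⟨j, h, Or.inl (mem_of_mem_erase h3)⟩
        · exact h2 ⟨j, h, Or.inr (mem_of_mem_erase h3)⟩

theorem stage4_aux (s2 : Finset (Fin n × Fin n)) (s3 : Finset (Fin n))
    (s : Finset (Fin n × Fin n)) :
    ∑ M ∈ univ.filter (fun M : Finset (Cell A × Cell A) => Cls s2 s3 ∅ M), (-1 : ℤ) ^ M.card =
      ∑ M ∈ univ.filter (fun M : Finset (Cell A × Cell A) => Cls s2 s3 s M),
        (-1 : ℤ) ^ M.card := by
  induction s using Finset.induction_on with
  | empty => rfl
  | insert x s hx ih =>
    rw [ih, sum_restrict _ (fun M => P4 M x.1 x.2)]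
    · congr 1
      ext M
      rw [mem_filter, mem_filter]
      simp only [mem_univ, true_and, mem_insert, forall_eq_or_imp, Cls]
      tauto
    · obtain ⟨i, j⟩ := x
      by_cases hA : A i j = true
      swap
      · -- no such entry
        refine Finset.sum_eq_zero ?_
        intro M hM
        simp only [mem_filter, mem_univ, true_and] at hM
        exact absurd (fun h => absurd h hA) hM.2
      -- split according to the pair `(v i, vb i j)`
      rw [← Finset.sum_filter_add_sum_filter_not _
        (fun M : Finset (Cell A × Cell A) => (Cell.v i, Cell.vb i j hA) ∈ M),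
        filter_filter, filter_filter]
      have hne : ∀ y ∈ s, ∀ h, (Cell.va i j hA, Cell.t i j hA) ≠
          ((Cell.va y.1 y.2 h, Cell.t y.1 y.2 h) : Cell A × Cell A) := by
        rintro ⟨i', j'⟩ hy h e
        simp only [Prod.mk.injEq, Cell.t.injEq] at e
        apply hx
        rw [e.2.1, e.2.2]
        exact hy
      have e1 : ∑ M ∈ univ.filter (fun M : Finset (Cell A × Cell A) =>
          (Cls s2 s3 s M ∧ ¬ P4 M i j) ∧ (Cell.v i, Cell.vb i j hA) ∈ M), (-1 : ℤ) ^ M.card = 0 := by
        refine sum_toggle _ (Cell.va i j hA, Cell.t i j hA) ?_ ?_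
        · intro M hM hp
          simp only [mem_filter, mem_univ, true_and] at hM ⊢
          obtain ⟨⟨h1, h2⟩, hv⟩ := hM
          have hmat := h1.1.1
          have hP1 := h1.1.2
          have hfree : ∀ q ∈ M, q.1 ≠ Cell.va i j hA ∧ q.1 ≠ Cell.t i j hA ∧
              q.2 ≠ Cell.va i j hA ∧ q.2 ≠ Cell.t i j hA := by
            rintro ⟨y, z⟩ hq
            have hc := hmat.cov _ hq
            simp only at hc
            refine ⟨?_, ?_, ?_, ?_⟩
            · rintro rfl
              cases hc
              exact hp hq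
            · rintro rfl
              cases hc
            · rintro rfl
              cases hc
              · exact absurd (hmat.eq_of_fst hq hv) (by simp)
              · exact absurd (hmat.eq_of_fst hq (hP1 _)) (by simp)
            · rintro rfl
              cases hc
              · exact h2 (fun _ => Or.inl hq)
              · exact hp hq
              · exact hmat.not_mid (by simp) hv hq
          refine ⟨⟨cls_toggle (p := (Cell.va i j hA, Cell.t i j hA)) h1 (hmat.insert (Fc.t_va _ _ _) hfree) (mem_insert_iff' M)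
            (by simp) (by simp) (by simp) (fun y hy h => ⟨by simp, hne y hy h⟩), ?_⟩,
            mem_insert_of_mem hv⟩
          intro h3
          rcases h3 hA with h3 | h3
          · exact h2 (fun _ => Or.inl ((mem_insert_iff' M _ (by simp)).2 h3))
          · exact h3.2 (mem_insert_of_mem hv)
        · intro M hM hp
          simp only [mem_filter, mem_univ, true_and] at hM ⊢
          obtain ⟨⟨h1, h2⟩, hv⟩ := hM
          refine ⟨⟨cls_toggle (p := (Cell.va i j hA, Cell.t i j hA)) h1 (h1.1.1.erase _) (mem_erase_iff' M)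
            (by simp) (by simp) (by simp) (fun y hy h => ⟨by simp, hne y hy h⟩), ?_⟩,
            mem_erase.2 ⟨by simp, hv⟩⟩
          intro h3
          rcases h3 hA with h3 | h3
          · exact h2 (fun _ => Or.inl (mem_of_mem_erase h3))
          · exact h3.2 (mem_erase.2 ⟨by simp, hv⟩)
      have e2 : ∑ M ∈ univ.filter (fun M : Finset (Cell A × Cell A) =>
          (Cls s2 s3 s M ∧ ¬ P4 M i j) ∧ (Cell.v i, Cell.vb i j hA) ∉ M), (-1 : ℤ) ^ M.card = 0 := by
        refine sum_toggle _ (Cell.vb i j hA, Cell.t i j hA) ?_ ?_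
        · intro M hM hp
          simp only [mem_filter, mem_univ, true_and] at hM ⊢
          obtain ⟨⟨h1, h2⟩, hv⟩ := hM
          have hmat := h1.1.1
          have hP1 := h1.1.2
          have hfree : ∀ q ∈ M, q.1 ≠ Cell.vb i j hA ∧ q.1 ≠ Cell.t i j hA ∧
              q.2 ≠ Cell.vb i j hA ∧ q.2 ≠ Cell.t i j hA := by
            rintro ⟨y, z⟩ hq
            have hc := hmat.cov _ hq
            simp only at hc
            refine ⟨?_, ?_, ?_, ?_⟩
            · rintro rfl
              cases hc
              exact hp hq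
            · rintro rfl
              cases hc
            · rintro rfl
              cases hc
              · exact hv hq
              · exact absurd (hmat.eq_of_fst hq (hP1 _)) (by simp)
            · rintro rfl
              cases hc
              · exact h2 (fun _ => Or.inl hq)
              · exact h2 (fun _ => Or.inr ⟨hq, hv⟩)
              · exact hp hq
          refine ⟨⟨cls_toggle (p := (Cell.vb i j hA, Cell.t i j hA)) h1 (hmat.insert (Fc.t_vb _ _ _) hfree) (mem_insert_iff' M)
            (by simp) (by simp) (by simp) (by simp), ?_⟩, ?_⟩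
          · intro h3
            rcases h3 hA with h3 | h3
            · exact h2 (fun _ => Or.inl ((mem_insert_iff' M _ (by simp)).2 h3))
            · exact h2 (fun _ => Or.inr ⟨(mem_insert_iff' M _ (by simp)).2 h3.1, hv⟩)
          · intro h3
            exact hv ((mem_insert_iff' M _ (by simp)).2 h3)
        · intro M hM hp
          simp only [mem_filter, mem_univ, true_and] at hM ⊢
          obtain ⟨⟨h1, h2⟩, hv⟩ := hM
          refine ⟨⟨cls_toggle (p := (Cell.vb i j hA, Cell.t i j hA)) h1 (h1.1.1.erase _) (mem_erase_iff' M)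
            (by simp) (by simp) (by simp) (by simp), ?_⟩,
            fun h3 => hv (mem_of_mem_erase h3)⟩
          intro h3
          rcases h3 hA with h3 | h3
          · exact h2 (fun _ => Or.inl (mem_of_mem_erase h3))
          · exact h2 (fun _ => Or.inr ⟨mem_of_mem_erase h3.1, hv⟩)
      rw [e1, e2, add_zero]

/-- After all eliminations. -/
theorem stages :
    ∑ M ∈ univ.filter (fun M : Finset (Cell A × Cell A) => Acy Fc M), (-1 : ℤ) ^ M.card =
      ∑ M ∈ univ.filter (fun M : Finset (Cell A × Cell A) => Cls univ univ univ M),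
        (-1 : ℤ) ^ M.card := by
  rw [stage1, stage2_aux univ, stage3_aux univ univ, stage4_aux univ univ univ]

end Pool.Agent.R536.ME
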