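import Pool.Agent.R536.ME.Bridge

/-!
# Acyclic matchings of the complex of a matrix; evaluation of the polynomial
-/

set_option autoImplicit false

namespace Pool.Agent.NPC.R536ME

open Finset Classical Pool.Agent.R536.ME

variable {n : ℕ} {A : Fin n → Fin n → Bool}

/-- The embedding of the pairs of cells. -/
noncomputable def ep (A : Fin n → Fin n → Bool) : Cell A × Cell A ↪ Finset ℕ × Finset ℕ :=
  Function.Embedding.prodMap ⟨vs (A := A), vs_inj⟩ ⟨vs (A := A), vs_inj⟩

theorem ep_apply (p : Cell A × Cell A) : ep A p = (vs p.1, vs p.2) := rfl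

theorem mem_map_ep {M : Finset (Cell A × Cell A)} {x y : Cell A} :
    (vs x, vs y) ∈ M.map (ep A) ↔ (x, y) ∈ M := by
  rw [← ep_apply (x, y), mem_map']

theorem mem_map_ep' {M : Finset (Cell A × Cell A)} {p : Finset ℕ × Finset ℕ} :
    p ∈ M.map (ep A) ↔ ∃ q ∈ M, p = (vs q.1, vs q.2) := by
  rw [mem_map]
  constructor
  · rintro ⟨q, hq, rfl⟩; exact ⟨q, hq, rfl⟩
  · rintro ⟨q, hq, rfl⟩; exact ⟨q, hq, rfl⟩

theorem harc_iff {M : Finset (Cell A × Cell A)} {x y : Cell A} :
    HArc (cx A) (M.map (ep A)) (vs x) (vs y) ↔ arc Fc M x y := by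
  unfold HArc arc
  rw [mem_map_ep, mem_map_ep, covers_vs]
  have h1 : vs x ∈ cx A := mem_cx.2 ⟨x, rfl⟩
  have h2 : vs y ∈ cx A := mem_cx.2 ⟨y, rfl⟩
  simp only [h1, h2, true_and]

theorem harc_ends {M : Finset (Cell A × Cell A)} {s t : Finset ℕ}
    (h : HArc (cx A) (M.map (ep A)) s t) : ∃ x y : Cell A, vs x = s ∧ vs y = t ∧ arc Fc M x y := by
  have h' : ∃ x y : Cell A, vs x = s ∧ vs y = t := by
    rcases h with ⟨h1, h2, -⟩ | h
    · obtain ⟨x, hx⟩ := mem_cx.1 h1
      obtain ⟨y, hy⟩ := mem_cx.1 h2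
      exact ⟨x, y, hx, hy⟩
    · obtain ⟨q, -, hq⟩ := mem_map_ep'.1 h
      exact ⟨q.1, q.2, (congrArg Prod.fst hq).symm, (congrArg Prod.snd hq).symm⟩
  obtain ⟨x, y, rfl, rfl⟩ := h'
  exact ⟨x, y, rfl, rfl, harc_iff.1 h⟩

theorem transGen_iff {M : Finset (Cell A × Cell A)} {x y : Cell A} :
    Relation.TransGen (HArc (cx A) (M.map (ep A))) (vs x) (vs y) ↔
      Relation.TransGen (arc Fc M) x y := by
  constructor
  · intro h
    have key : ∀ s t, Relation.TransGen (HArc (cx A) (M.map (ep A))) s t →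
        ∀ x, vs x = s → ∃ y, vs y = t ∧ Relation.TransGen (arc Fc M) x y := by
      intro s t hst x hx
      induction hst with
      | single h1 =>
        obtain ⟨x', y', h2, h3, h4⟩ := harc_ends h1
        have : x = x' := vs_inj (hx.trans h2.symm)
        subst this
        exact ⟨y', h3, Relation.TransGen.single h4⟩
      | tail _ h1 ih =>
        obtain ⟨y, hy, hxy⟩ := ih
        obtain ⟨x', y', h2, h3, h4⟩ := harc_ends h1
        have : y = x' := vs_inj (hy.trans h2.symm)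
        subst this
        exact ⟨y', h3, Relation.TransGen.tail hxy h4⟩
    obtain ⟨y', h1, h2⟩ := key _ _ h x rfl
    rwa [vs_inj h1] at h2
  · intro h
    induction h with
    | single h1 => exact Relation.TransGen.single (harc_iff.2 h1)
    | tail _ h1 ih => exact Relation.TransGen.tail ih (harc_iff.2 h1)

theorem acy_iff {M : Finset (Cell A × Cell A)} :
    IsAcyclicMatching (cx A) (M.map (ep A)) ↔ Acy Fc M := by
  constructor
  · intro h
    refine ⟨⟨fun p hp => ?_, fun p hp q hq hne => ?_⟩, fun x hx => ?_⟩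
    · have := (h.pairs (vs p.1, vs p.2) (mem_map_ep.2 hp)).2.2
      exact covers_vs.1 this
    · have h1 : (vs p.1, vs p.2) ∈ M.map (ep A) := mem_map_ep.2 hp
      have h2 : (vs q.1, vs q.2) ∈ M.map (ep A) := mem_map_ep.2 hq
      have h3 : (vs p.1, vs p.2) ≠ (vs q.1, vs q.2) := by
        intro e
        exact hne ((ep A).injective e)
      refine ⟨fun e => ?_, fun e => ?_, fun e => ?_, fun e => ?_⟩
      · exact h3 (h.disj _ h1 _ h2 (vs p.1) (Or.inl rfl) (Or.inl (by rw [e])))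
      · exact h3 (h.disj _ h1 _ h2 (vs p.1) (Or.inl rfl) (Or.inr (by rw [e])))
      · exact h3 (h.disj _ h1 _ h2 (vs p.2) (Or.inr rfl) (Or.inl (by rw [e])))
      · exact h3 (h.disj _ h1 _ h2 (vs p.2) (Or.inr rfl) (Or.inr (by rw [e])))
    · exact h.acyclic _ (transGen_iff.2 hx)
  · intro h
    refine ⟨fun p hp => ?_, fun p hp q hq s hs1 hs2 => ?_, fun s hs => ?_⟩
    · obtain ⟨q, hq, rfl⟩ := mem_map_ep'.1 hp
      exact ⟨mem_cx.2 ⟨_, rfl⟩, mem_cx.2 ⟨_, rfl⟩, covers_vs.2 (h.mat.cov q hq)⟩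
    · obtain ⟨p', hp', rfl⟩ := mem_map_ep'.1 hp
      obtain ⟨q', hq', rfl⟩ := mem_map_ep'.1 hq
      by_contra hne
      have hne' : p' ≠ q' := fun e => hne (by rw [e])
      obtain ⟨h1, h2, h3, h4⟩ := h.mat.disj p' hp' q' hq' hne'
      rcases hs1 with rfl | rfl <;> rcases hs2 with e | e
      · exact h1 (vs_inj e)
      · exact h2 (vs_inj e)
      · exact h3 (vs_inj e)
      · exact h4 (vs_inj e)
    · obtain ⟨t, ht, -⟩ := Relation.TransGen.head'_iff.1 hs
      obtain ⟨x, y, rfl, -, -⟩ := harc_ends ht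
      exact h.acyclic x (transGen_iff.1 hs)

theorem exists_of_matching {M' : Finset (Finset ℕ × Finset ℕ)}
    (h : IsAcyclicMatching (cx A) M') : ∃ M : Finset (Cell A × Cell A), M.map (ep A) = M' := by
  refine ⟨univ.filter (fun p : Cell A × Cell A => (vs p.1, vs p.2) ∈ M'), ?_⟩
  ext p
  rw [mem_map_ep']
  constructor
  · rintro ⟨q, hq, rfl⟩
    exact (mem_filter.1 hq).2
  · intro hp
    obtain ⟨h1, h2, -⟩ := h.pairs p hp
    obtain ⟨x, hx⟩ := mem_cx.1 h1
    obtain ⟨y, hy⟩ := mem_cx.1 h2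
    refine ⟨(x, y), mem_filter.2 ⟨mem_univ _, ?_⟩, ?_⟩
    · simp only [hx, hy]; exact hp
    · simp only [hx, hy]

theorem acyclicMatchings_cx : acyclicMatchings (cx A) =
    (univ.filter (fun M : Finset (Cell A × Cell A) => Acy Fc M)).map
      ⟨Finset.map (ep A), Finset.map_injective _⟩ := by
  ext M'
  simp only [acyclicMatchings, mem_filter, mem_powerset, mem_map, mem_univ, true_and,
    Function.Embedding.coeFn_mk]
  constructor
  · rintro ⟨-, h⟩
    obtain ⟨M, rfl⟩ := exists_of_matching h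
    exact ⟨M, acy_iff.1 h, rfl⟩
  · rintro ⟨M, hM, rfl⟩
    have h := acy_iff.2 hM
    refine ⟨fun p hp => ?_, h⟩
    obtain ⟨h1, h2, -⟩ := h.pairs p hp
    exact mem_product.2 ⟨h1, h2⟩

/-- The number of edges. -/
noncomputable def nE (A : Fin n → Fin n → Bool) : ℕ :=
  (univ.filter (fun y : Cell A => (vl y).length = 2)).card

theorem crit_eq (M : Finset (Cell A × Cell A)) : crit (cx A) (M.map (ep A)) 1 =
    (univ.filter (fun y : Cell A => (vl y).length = 2 ∧ ∀ p ∈ M, y ≠ p.1 ∧ y ≠ p.2)).card := by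
  unfold crit
  have : (cx A).filter (fun s => s.card = 1 + 1 ∧ ∀ p ∈ M.map (ep A), s ≠ p.1 ∧ s ≠ p.2) =
      (univ.filter (fun y : Cell A => (vl y).length = 2 ∧ ∀ p ∈ M, y ≠ p.1 ∧ y ≠ p.2)).map
        ⟨vs (A := A), vs_inj⟩ := by
    ext s
    simp only [mem_filter, mem_map, mem_univ, true_and, Function.Embedding.coeFn_mk]
    constructor
    · rintro ⟨h1, h2, h3⟩
      obtain ⟨x, rfl⟩ := mem_cx.1 h1
      rw [card_vs] at h2
      refine ⟨x, ⟨h2, fun p hp => ?_⟩, rfl⟩
      have := h3 (vs p.1, vs p.2) ⟨p, hp, rfl⟩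
      exact ⟨fun e => this.1 (by rw [e]), fun e => this.2 (by rw [e])⟩
    · rintro ⟨x, ⟨h2, h3⟩, rfl⟩
      refine ⟨mem_cx.2 ⟨x, rfl⟩, by rw [card_vs]; exact h2, fun p hp => ?_⟩
      obtain ⟨q, hq, rfl⟩ := hp
      exact ⟨fun e => (h3 q hq).1 (vs_inj e), fun e => (h3 q hq).2 (vs_inj e)⟩
  rw [this, card_map]

theorem length_cases (x : Cell A) : (vl x).length = 1 ∨ (vl x).length = 2 ∨
    (vl x).length = 3 := by
  cases x <;> simp [vl]

theorem crit_add {M : Finset (Cell A × Cell A)} (h : Mat Fc M) :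
    crit (cx A) (M.map (ep A)) 1 + M.card = nE A := by
  rw [crit_eq, nE]
  have h1 : (univ.filter (fun y : Cell A => (vl y).length = 2)) =
      (univ.filter (fun y : Cell A => (vl y).length = 2 ∧ ∀ p ∈ M, y ≠ p.1 ∧ y ≠ p.2)) ∪
      (univ.filter (fun y : Cell A => (vl y).length = 2 ∧ ¬ ∀ p ∈ M, y ≠ p.1 ∧ y ≠ p.2)) := by
    ext y
    simp only [mem_filter, mem_union, mem_univ, true_and]
    tauto
  rw [h1, card_union_of_disjoint]
  swap
  · rw [disjoint_left]
    intro y hy hy'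
    exact (mem_filter.1 hy').2.2 (mem_filter.1 hy).2.2
  congr 1
  refine card_bij (fun p _ => if (vl p.1).length = 2 then p.1 else p.2) ?_ ?_ ?_
  · intro p hp
    have h2 := length_of_Fc (h.cov p hp)
    have h3 := length_cases p.1
    have h4 := length_cases p.2
    rw [mem_filter]
    refine ⟨mem_univ _, ?_, ?_⟩
    · split_ifs with h5
      · exact h5
      · omega
    · intro h6
      have := h6 p hp
      split_ifs at this with h5
      · exact this.1 rfl
      · exact this.2 rfl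
  · intro p hp q hq he
    by_contra hne
    obtain ⟨h1, h2, h3, h4⟩ := h.disj p hp q hq hne
    split_ifs at he
    · exact h1 he
    · exact h2 he
    · exact h3 he
    · exact h4 he
  · intro y hy
    rw [mem_filter] at hy
    obtain ⟨-, h2, h3⟩ := hy
    push Not at h3
    obtain ⟨p, hp, h3⟩ := h3
    refine ⟨p, hp, ?_⟩
    have h4 := length_of_Fc (h.cov p hp)
    by_cases h5 : y = p.1
    · rw [← h5, if_pos h2]
    · have h6 := h3 h5
      rw [h6] at h2
      rw [if_neg (by omega), h6]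

/-- Evaluation of the polynomial at `(1, -1, 1)`. -/
noncomputable def evm : MvPolynomial ℕ ℕ →+* ℤ :=
  MvPolynomial.eval₂Hom (Nat.castRingHom ℤ) (fun i => if i = 1 then -1 else 1)

theorem evm_prod (d : ℕ) (f : ℕ → ℕ) : evm (∏ i ∈ range (d + 2), (MvPolynomial.X i) ^ f i) =
    (-1) ^ f 1 := by
  rw [map_prod]
  rw [Finset.prod_eq_single 1]
  · rw [map_pow, evm, MvPolynomial.eval₂Hom_X', if_pos rfl]
  · intro i _ hi
    rw [map_pow, evm, MvPolynomial.eval₂Hom_X', if_neg hi, one_pow]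
  · intro h
    exact absurd (mem_range.2 (by omega)) h

theorem evm_ME (h0 : 0 < n) : ∃ N : ℕ, evm (ME (cx A)) = (-1) ^ N *
    (2 ^ n * (univ.filter (fun σ : Equiv.Perm (Fin n) => ∀ i, A i (σ i) = true)).card) := by
  obtain ⟨N, hN⟩ := signed_count A
  refine ⟨nE A + N, ?_⟩
  rw [ME, map_sum, cx_dim h0]
  have h1 : ∀ M ∈ acyclicMatchings (cx A),
      evm (∏ i ∈ range (2 + 1), (MvPolynomial.X i) ^ crit (cx A) M i) =
      (-1) ^ crit (cx A) M 1 := fun M _ => evm_prod 1 _
  rw [sum_congr rfl h1, acyclicMatchings_cx, sum_map, pow_add, mul_assoc, ← hN, mul_sum]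
  refine sum_congr rfl fun M hM => ?_
  have h2 := crit_add ((mem_filter.1 hM).2).mat
  simp only [Function.Embedding.coeFn_mk]
  rw [← h2, pow_add, mul_assoc, ← pow_add, ← two_mul, pow_mul]
  norm_num

end Pool.Agent.NPC.R536ME
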